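import Mathlib
import Pool.Agent.TH855.Types

set_option autoImplicit false

/-!
# Random types with few monochromatic configurations of two kinds (local lemma)

The version of `mono_types` for two families of configurations.
-/

namespace Pool.Agent.K1H34.AKS

open Finset Classical Pool.Agent.Helper635.LLL Pool.Agent.Helper311.Glue Pool.Agent.TH855

set_option linter.unusedSectionVars false

variable {U₁ U₂ V : Type} [Fintype U₁] [Fintype U₂] [Fintype V]

theorem mono_types2 (G : SimpleGraph V) [DecidableRel G.Adj] {K D k₁ k₂ : ℕ} (p h m₁ m₂ : ℕ)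
    (hK : 1 ≤ K) (hKD : K ≤ D) (hD : ∀ v, G.degree v ≤ D)
    (H₁ : SimpleGraph U₁) (hH₁ : H₁.Connected) (hU₁ : Fintype.card U₁ = k₁ + 1) (x₁ : U₁)
    (Ψ₁ : Finset (U₁ → V)) (hΨ₁ : ∀ ψ ∈ Ψ₁, Function.Injective ψ ∧ IsHom H₁ G ψ)
    (hloc₁ : ∀ ψ ∈ Ψ₁, ∀ a b, Near G h (ψ a) (ψ b)) (B₁ : ℝ) (hB₁0 : 0 ≤ B₁)
    (hB₁ : ∀ v, ((Tch G x₁ Ψ₁ v).card : ℝ) / (K : ℝ) ^ k₁ +
      2 ^ (k₁ + 1) * (((p * (k₁ + 1) : ℕ) : ℝ) + 1) ^ (k₁ + 1) * ((D : ℝ) / K) ^ k₁ ≤ B₁)
    (hm₁ : 1 ≤ m₁)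
    (H₂ : SimpleGraph U₂) (hH₂ : H₂.Connected) (hU₂ : Fintype.card U₂ = k₂ + 1) (x₂ : U₂)
    (Ψ₂ : Finset (U₂ → V)) (hΨ₂ : ∀ ψ ∈ Ψ₂, Function.Injective ψ ∧ IsHom H₂ G ψ)
    (hloc₂ : ∀ ψ ∈ Ψ₂, ∀ a b, Near G h (ψ a) (ψ b)) (B₂ : ℝ) (hB₂0 : 0 ≤ B₂)
    (hB₂ : ∀ v, ((Tch G x₂ Ψ₂ v).card : ℝ) / (K : ℝ) ^ k₂ +
      2 ^ (k₂ + 1) * (((p * (k₂ + 1) : ℕ) : ℝ) + 1) ^ (k₂ + 1) * ((D : ℝ) / K) ^ k₂ ≤ B₂)
    (hm₂ : 1 ≤ m₂)
    (y : ℝ) (hy : 0 ≤ y) (hy1 : y ≤ 1)
    (h4 : 4 * (K * Real.exp (-(y ^ 2 * D / (3 * K))) + (B₁ / m₁) ^ p + (B₂ / m₂) ^ p) *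
      ((D + 1) ^ (2 * (h + 1)) : ℕ) ≤ 1) :
    ∃ t : V → ℕ, (∀ v, t v < K) ∧
      (∀ v j, ((G.neighborFinset v).filter (fun u => t u = j)).card ≤ ⌊(1 + y) * D / K⌋₊) ∧
      (∀ v, ((Tch G x₁ Ψ₁ v).filter (fun ψ => ∀ a b, t (ψ a) = t (ψ b))).card < m₁) ∧
      (∀ v, ((Tch G x₂ Ψ₂ v).filter (fun ψ => ∀ a b, t (ψ a) = t (ψ b))).card < m₂) := by
  have : Nonempty (Fin K) := ⟨⟨0, hK⟩⟩
  have hcardpos : 0 < Fintype.card (V → Fin K) := Fintype.card_pos
  have hKpos : (0 : ℝ) < K := by exact_mod_cast hK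
  set w := ⌊(1 + y) * D / K⌋₊ with hw
  have hm : (1 + y) * D / K ≤ ((w + 1 : ℕ) : ℝ) := by
    push_cast; exact (Nat.lt_floor_add_one _).le
  have hD' : ∀ v, ∀ N : Finset V, (∀ w ∈ N, G.Adj v w) → N.card ≤ D := by
    intro v N hN
    have h1 : N ⊆ G.neighborFinset v := by
      intro w hw
      rw [SimpleGraph.mem_neighborFinset]
      exact hN w hw
    refine (Finset.card_le_card h1).trans ?_
    rw [SimpleGraph.card_neighborFinset_eq_degree]
    exact hD v
  set C1 : V → (V → Fin K) → Prop := fun v ω => ∃ j : Fin K, w + 1 ≤ ((G.neighborFinset v).filter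
      (fun u => ω u = j)).card with hC1
  set C2 : V → (V → Fin K) → Prop := fun v ω => m₁ ≤
      ((Tch G x₁ Ψ₁ v).filter (fun ψ => Mono ψ ω)).card with hC2
  set C3 : V → (V → Fin K) → Prop := fun v ω => m₂ ≤
      ((Tch G x₂ Ψ₂ v).filter (fun ψ => Mono ψ ω)).card with hC3
  set Sv : V → Finset V := fun v => univ.filter (fun w => Near G (h + 1) v w) with hSv
  obtain ⟨ω, hω⟩ := lll (ι := V) univ (fun v (ω : V → Fin K) => C1 v ω ∨ C2 v ω ∨ C3 v ω) Sv
    (by
      intro v _ ω ω' hag hbad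
      have hag1 : ∀ u ∈ G.neighborFinset v, ω u = ω' u := fun u hu =>
        hag u (by
          rw [hSv, Finset.mem_filter]
          rw [SimpleGraph.mem_neighborFinset] at hu
          exact ⟨Finset.mem_univ _, near_mono (by omega) (near_adj hu)⟩)
      have hag2 : ∀ ψ ∈ Tch G x₁ Ψ₁ v, ∀ a, ω (ψ a) = ω' (ψ a) := by
        intro ψ hψ a
        obtain ⟨hψ1, z, -, hz⟩ := mem_tch.1 hψ
        refine hag _ ?_
        rw [hSv, Finset.mem_filter]
        refine ⟨Finset.mem_univ _, ?_⟩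
        have := (near_adj hz).trans (hloc₁ ψ hψ1 z a)
        rwa [add_comm] at this
      have hag3 : ∀ ψ ∈ Tch G x₂ Ψ₂ v, ∀ a, ω (ψ a) = ω' (ψ a) := by
        intro ψ hψ a
        obtain ⟨hψ1, z, -, hz⟩ := mem_tch.1 hψ
        refine hag _ ?_
        rw [hSv, Finset.mem_filter]
        refine ⟨Finset.mem_univ _, ?_⟩
        have := (near_adj hz).trans (hloc₂ ψ hψ1 z a)
        rwa [add_comm] at this
      rcases hbad with ⟨j, hj⟩ | hl | hl
      · left
        refine ⟨j, le_trans hj (Finset.card_le_card ?_)⟩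
        intro u hu
        rw [mem_filter] at hu ⊢
        exact ⟨hu.1, by rw [← hag1 u hu.1]; exact hu.2⟩
      · right; left
        refine le_trans hl (Finset.card_le_card ?_)
        intro ψ hψ
        rw [mem_filter] at hψ ⊢
        refine ⟨hψ.1, ?_⟩
        intro a b
        rw [← hag2 ψ hψ.1 a, ← hag2 ψ hψ.1 b]
        exact hψ.2 a b
      · right; right
        refine le_trans hl (Finset.card_le_card ?_)
        intro ψ hψ
        rw [mem_filter] at hψ ⊢
        refine ⟨hψ.1, ?_⟩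
        intro a b
        rw [← hag3 ψ hψ.1 a, ← hag3 ψ hψ.1 b]
        exact hψ.2 a b)
    (K * Real.exp (-(y ^ 2 * D / (3 * K))) + (B₁ / m₁) ^ p + (B₂ / m₂) ^ p)
    ((D + 1) ^ (2 * (h + 1))) (by positivity)
    (by
      intro v _
      have hsub : ev (fun ω : V → Fin K => C1 v ω ∨ C2 v ω ∨ C3 v ω) ⊆
          (((Finset.univ : Finset (Fin K)).biUnion
            (fun j => ev (fun ω : V → Fin K => w + 1 ≤ ((G.neighborFinset v).filter
              (fun u => ω u = j)).card))) ∪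
          ev (fun ω : V → Fin K => m₁ ≤ ((Tch G x₁ Ψ₁ v).filter (fun ψ => Mono ψ ω)).card)) ∪
          ev (fun ω : V → Fin K => m₂ ≤ ((Tch G x₂ Ψ₂ v).filter (fun ψ => Mono ψ ω)).card) := by
        intro ω hω
        rw [mem_ev] at hω
        rw [Finset.mem_union, Finset.mem_union, Finset.mem_biUnion]
        rcases hω with ⟨j, hj⟩ | hl | hl
        · left; left; exact ⟨j, Finset.mem_univ _, mem_ev.mpr hj⟩
        · left; right; exact mem_ev.mpr hl
        · right; exact mem_ev.mpr hl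
      have h1 := (Finset.card_le_card hsub).trans ((Finset.card_union_le _ _).trans
        (Nat.add_le_add ((Finset.card_union_le _ _).trans
          (Nat.add_le_add Finset.card_biUnion_le (le_refl _))) (le_refl _)))
      have h2 : (cnt (fun ω : V → Fin K => C1 v ω ∨ C2 v ω ∨ C3 v ω) : ℝ) ≤ (∑ j : Fin K,
          (cnt (fun ω : V → Fin K => w + 1 ≤ ((G.neighborFinset v).filter
              (fun u => ω u = j)).card) : ℝ)) +
          (cnt (fun ω : V → Fin K => m₁ ≤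
              ((Tch G x₁ Ψ₁ v).filter (fun ψ => Mono ψ ω)).card) : ℝ) +
          (cnt (fun ω : V → Fin K => m₂ ≤
              ((Tch G x₂ Ψ₂ v).filter (fun ψ => Mono ψ ω)).card) : ℝ) := by
        exact_mod_cast h1
      refine h2.trans ?_
      rw [add_mul, add_mul]
      refine add_le_add (add_le_add ?_ ?_) ?_
      · refine (Finset.sum_le_sum (fun j _ => Pool.Agent.H238R2.HY.tail K D hK
          (G.neighborFinset v) (by
          rw [SimpleGraph.card_neighborFinset_eq_degree]; exact hD v) j y hy hy1 (w + 1) hm)).trans ?_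
        rw [Finset.sum_const, Finset.card_univ, Fintype.card_fin, nsmul_eq_mul]
        exact le_of_eq (by ring)
      · exact tail_mono hK hKD H₁ hH₁ hU₁ G hD' (Tch G x₁ Ψ₁ v)
          (fun ψ hψ => hΨ₁ ψ (mem_tch.1 hψ).1) B₁ p (hB₁ v) m₁ hm₁
      · exact tail_mono hK hKD H₂ hH₂ hU₂ G hD' (Tch G x₂ Ψ₂ v)
          (fun ψ hψ => hΨ₂ ψ (mem_tch.1 hψ).1) B₂ p (hB₂ v) m₂ hm₂)
    (by
      intro v _
      refine le_trans (Finset.card_le_card ?_) (near_card G D hD (2 * (h + 1)) v)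
      intro j hj
      rw [mem_filter, Finset.not_disjoint_iff] at hj
      obtain ⟨z, hz1, hz2⟩ := hj.2
      rw [hSv, mem_filter] at hz1 hz2
      rw [mem_filter]
      refine ⟨Finset.mem_univ _, ?_⟩
      have a1 := hz1.2.trans hz2.2.symm
      rwa [← two_mul] at a1)
    (by exact_mod_cast h4) (Nat.one_le_pow _ _ (by omega)) hcardpos
  refine ⟨fun v => (ω v : ℕ), fun v => (ω v).2, ?_, ?_, ?_⟩
  · intro v j
    by_cases hj : j < K
    · have h1 := hω v (mem_univ v)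
      rw [not_or] at h1
      have h2 := h1.1
      rw [hC1] at h2
      push Not at h2
      have h3 := h2 ⟨j, hj⟩
      have h5 : (G.neighborFinset v).filter (fun u => (ω u : ℕ) = j) =
          (G.neighborFinset v).filter (fun u => ω u = ⟨j, hj⟩) := by
        apply Finset.filter_congr
        intro u _
        rw [Fin.ext_iff]
      rw [h5]
      omega
    · have h3 : (G.neighborFinset v).filter (fun u => (ω u : ℕ) = j) = ∅ := by
        apply Finset.filter_eq_empty_iff.2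
        intro u _ h
        exact hj (by rw [← h]; exact (ω u).2)
      rw [h3]; simp
  · intro v
    have h1 := hω v (mem_univ v)
    rw [not_or, not_or] at h1
    have h2 := h1.2.1
    rw [hC2] at h2
    push Not at h2
    refine lt_of_le_of_lt (Finset.card_le_card ?_) h2
    intro ψ hψ
    rw [mem_filter] at hψ ⊢
    exact ⟨hψ.1, fun a b => Fin.ext (hψ.2 a b)⟩
  · intro v
    have h1 := hω v (mem_univ v)
    rw [not_or, not_or] at h1
    have h2 := h1.2.2
    rw [hC3] at h2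
    push Not at h2
    refine lt_of_le_of_lt (Finset.card_le_card ?_) h2
    intro ψ hψ
    rw [mem_filter] at hψ ⊢
    exact ⟨hψ.1, fun a b => Fin.ext (hψ.2 a b)⟩

end Pool.Agent.K1H34.AKS
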