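import Mathlib
import Pool.Agent.TH855.Engine
import Pool.Agent.K1H34.AKS.Part

set_option autoImplicit false

/-!
# Colouring by a random partition: two classes, few configurations, few exceptional edges
-/

namespace Pool.Agent.K1H34.AKS

open Finset Filter Classical Pool.Agent.Helper635.LLL Pool.Agent.Helper311.Glue Pool.Agent.TH855

set_option linter.unusedSectionVars false

theorem engine2 {U' U : Type} [Fintype U] (H : SimpleGraph U') {c : ℝ} (hc : 0 ≤ c)
    (hGB : GB H c) (H0 : SimpleGraph U) (hH0 : H0.Connected) (k : ℕ) (hk : 1 ≤ k)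
    (hU : Fintype.card U = k + 1) (x : U) {θ β η C : ℝ} (hθ0 : 0 < θ) (hθβ : θ < β) (hβ1 : β ≤ 1)
    (hη0 : 0 ≤ η) (hηθ : η + k * θ < 1) (hC : 0 ≤ C) :
    ∀ ε : ℝ, 0 < ε → ∃ D₀ : ℕ, ∀ D : ℕ, D₀ ≤ D →
      ∀ (V : Type) [Fintype V] (G : SimpleGraph V) [DecidableRel G.Adj], (∀ v, G.degree v ≤ D) →
        ∀ cl : V → ℕ, (∀ v, cl v < 2) →
        ∀ Ψ : Finset (U → V), (∀ ψ ∈ Ψ, Function.Injective ψ ∧ IsHom H0 G ψ) →
        (∀ v, ((Tch G x Ψ v).card : ℝ) ≤ C * (D : ℝ) ^ k * Real.exp (η * Real.log D)) →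
        ∀ R : V → V → Prop, (∀ u w, R u w → G.Adj u w) →
        (∀ u, ((univ.filter (fun w => R u w)).card : ℝ) ≤ Real.exp ((1 - β) * Real.log D)) →
        (∀ T : Set V, (∀ u ∈ T, ∀ w ∈ T, cl u = cl w) → (∀ u ∈ T, ∀ w ∈ T, ¬ R u w) →
          Cp H G T → ∃ ψ ∈ Ψ, Set.range ψ ⊆ T) →
        ∃ n : ℕ, (n : ℝ) ≤ (2 * c / θ + ε) * ((D : ℝ) / Real.log D) ∧ ColOn G Set.univ n := by
  intro ε hε
  have hkpos : (0 : ℝ) < k := by exact_mod_cast hk
  have hk1 : (1 : ℝ) ≤ k := by exact_mod_cast hk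
  obtain ⟨h0, hh0⟩ := exists_near H0 hH0
  set h : ℕ := h0 + 1 with hh
  -- parameters
  set σ : ℝ := min (1 - η - k * θ) (β - θ) with hσ
  have hσ0 : 0 < σ := lt_min (by linarith) (by linarith)
  have hσ1 : σ ≤ 1 - η - k * θ := min_le_left _ _
  have hσ2 : σ ≤ β - θ := min_le_right _ _
  have hkθ : θ ≤ k * θ := by
    have := mul_nonneg (sub_nonneg.2 hk1) hθ0.le
    linarith
  have hθ1 : θ ≤ 1 := by linarith
  set δ : ℝ := min (1 / 4) (ε * θ / (4 * (5 * c + 6))) with hδ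
  have hδ4 : δ ≤ 1 / 4 := min_le_left _ _
  have hδε : δ ≤ ε * θ / (4 * (5 * c + 6)) := min_le_right _ _
  have hδ0 : 0 < δ := lt_min (by norm_num) (by positivity)
  set p : ℕ := ⌈(2 * (h + 1) + 1 : ℝ) / (σ / 2)⌉₊ with hp
  have hpσ : (2 * (h + 1) + 1 : ℝ) ≤ p * (σ / 2) := by
    have := Nat.le_ceil ((2 * (h + 1) + 1 : ℝ) / (σ / 2))
    rw [div_le_iff₀ (by positivity)] at this
    exact this
  set C' : ℝ := C + 2 ^ (k + 1) * (((p * (k + 1) : ℕ) : ℝ) + 1) ^ (k + 1) +
    (1 + 2 ^ (1 + 1) * (((p * (1 + 1) : ℕ) : ℝ) + 1) ^ (1 + 1)) with hC'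
  have hC'0 : 0 < C' := by rw [hC']; positivity
  obtain ⟨y₀, hy₀⟩ := hGB δ hδ0
  -- eventual inequalities
  have E0 : ∀ᶠ L : ℝ in atTop, 1 ≤ L := eventually_ge_atTop 1
  have E1 : ∀ᶠ L : ℝ in atTop, 2 * max y₀ 2 ≤ Real.exp (θ * L) :=
    (Real.tendsto_exp_atTop.comp (tendsto_id.const_mul_atTop hθ0)).eventually_ge_atTop _
  have E2 : ∀ᶠ L : ℝ in atTop, Real.log 2 ≤ (δ * θ) * L :=
    (tendsto_id.const_mul_atTop (by positivity)).eventually_ge_atTop _
  have E3 : ∀ᶠ L : ℝ in atTop, Real.exp (-(1 * L)) * (L + 1) ^ 0 ≤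
      1 / (16 * (C' ^ p * 2 ^ (2 * (h + 1)))) := asy_exp one_pos (by positivity) 0
  set a : ℝ := δ ^ 2 / 6 with ha
  have ha0 : 0 < a := by positivity
  have E4 : ∀ᶠ L : ℝ in atTop, (2 * (h + 1) + 2 : ℝ) ≤ a * θ ^ 2 / 2 * L :=
    (tendsto_id.const_mul_atTop (by positivity)).eventually_ge_atTop _
  have E5 : ∀ᶠ L : ℝ in atTop, Real.exp (-(1 * L)) * (L + 1) ^ 0 ≤
      1 / (8 * (2 * 2 ^ (2 * (h + 1)))) := asy_exp one_pos (by positivity) 0
  have E6 : ∀ᶠ L : ℝ in atTop, Real.exp (-(σ / 2 * L)) * (L + 1) ^ 1 ≤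
      ε / (2 * (4 * (k + 1) + 1)) := asy_exp (by positivity) (by positivity) 1
  have E := (((((E0.and E1).and E2).and E3).and E4).and E5).and E6
  have hlogtend : Tendsto (fun n : ℕ => Real.log (n : ℝ)) atTop atTop :=
    Real.tendsto_log_atTop.comp tendsto_natCast_atTop_atTop
  obtain ⟨D₀, hD₀⟩ := eventually_atTop.1 (hlogtend.eventually E)
  refine ⟨max D₀ 1, ?_⟩
  intro D hD V _ G _ hdeg cl hcl Ψ hΨ hΨc R hRG hRc hhit
  obtain ⟨⟨⟨⟨⟨⟨e0, e1⟩, e2⟩, e3⟩, e4⟩, e5⟩, e6⟩ := hD₀ D ((le_max_left _ _).trans hD)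
  set L := Real.log (D : ℝ) with hL
  have hD1 : (1 : ℝ) ≤ D := by exact_mod_cast (le_max_right _ _).trans hD
  have hDexp : (D : ℝ) = Real.exp L := by rw [hL, Real.exp_log (by linarith)]
  have hL0 : 0 < L := by linarith
  rw [one_mul, pow_zero, mul_one] at e3 e5
  -- the number of parts
  set K : ℕ := ⌈Real.exp ((1 - θ) * L)⌉₊ with hK
  have hKl : Real.exp ((1 - θ) * L) ≤ K := Nat.le_ceil _
  have hexpK1 : 1 ≤ Real.exp ((1 - θ) * L) := Real.one_le_exp (mul_nonneg (by linarith) hL0.le)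
  have hK1r : (1 : ℝ) ≤ K := hexpK1.trans hKl
  have hK1 : 1 ≤ K := by exact_mod_cast hK1r
  have hKpos : (0 : ℝ) < K := by linarith
  have hKu : (K : ℝ) ≤ 2 * Real.exp ((1 - θ) * L) := by
    have := Nat.ceil_lt_add_one (Real.exp_pos ((1 - θ) * L)).le
    rw [← hK] at this
    linarith
  have hsplit : Real.exp ((1 - θ) * L) * Real.exp (θ * L) = D := by
    rw [hDexp, ← Real.exp_add]; congr 1; ring
  have hDK1 : (D : ℝ) / K ≤ Real.exp (θ * L) := by
    rw [div_le_iff₀ hKpos, ← hsplit, mul_comm]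
    exact mul_le_mul_of_nonneg_left hKl (Real.exp_pos _).le
  have hDK2 : Real.exp (θ * L) / 2 ≤ (D : ℝ) / K := by
    rw [div_le_div_iff₀ two_pos hKpos, ← hsplit]
    have := mul_le_mul_of_nonneg_left hKu (Real.exp_pos (θ * L)).le
    linarith
  have hexpθ : 4 ≤ Real.exp (θ * L) := by
    have := le_max_right y₀ 2
    linarith
  have hKD : K ≤ D := by
    have h1 : (1 : ℝ) ≤ (D : ℝ) / K := by linarith
    rw [le_div_iff₀ hKpos, one_mul] at h1
    exact_mod_cast h1
  -- the threshold for bad vertices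
  set m0 : ℕ := ⌈Real.exp ((1 - σ / 2) * L)⌉₊ with hm0
  have hm0l : Real.exp ((1 - σ / 2) * L) ≤ m0 := Nat.le_ceil _
  have hm0e : 1 ≤ Real.exp ((1 - σ / 2) * L) :=
    Real.one_le_exp (mul_nonneg (by linarith) hL0.le)
  have hm01 : 1 ≤ m0 := by
    have : (1 : ℝ) ≤ m0 := hm0e.trans hm0l
    exact_mod_cast this
  have hm0pos : (0 : ℝ) < m0 := by exact_mod_cast hm01
  have hm0u : (m0 : ℝ) ≤ 2 * Real.exp ((1 - σ / 2) * L) := by
    have := Nat.ceil_lt_add_one (Real.exp_pos ((1 - σ / 2) * L)).le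
    rw [← hm0] at this
    linarith
  set B : ℝ := C' * Real.exp ((1 - σ) * L) with hB
  have hB0 : 0 ≤ B := by positivity
  have hpowk : ((D : ℝ) / K) ^ k ≤ Real.exp (k * θ * L) := by
    calc ((D : ℝ) / K) ^ k ≤ (Real.exp (θ * L)) ^ k :=
          pow_le_pow_left₀ (by positivity) hDK1 k
      _ = Real.exp (k * θ * L) := by
          rw [← Real.exp_nat_mul]; congr 1; ring
  have hBv : ∀ v, ((Tch G x Ψ v).card : ℝ) / (K : ℝ) ^ k +
      2 ^ (k + 1) * (((p * (k + 1) : ℕ) : ℝ) + 1) ^ (k + 1) * ((D : ℝ) / K) ^ k ≤ B := by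
    intro v
    have h1 : ((Tch G x Ψ v).card : ℝ) / (K : ℝ) ^ k ≤
        C * Real.exp ((1 - σ) * L) := by
      calc ((Tch G x Ψ v).card : ℝ) / (K : ℝ) ^ k
          ≤ (C * (D : ℝ) ^ k * Real.exp (η * L)) / (K : ℝ) ^ k :=
            div_le_div_of_nonneg_right (hΨc v) (by positivity)
        _ = C * (((D : ℝ) / K) ^ k * Real.exp (η * L)) := by rw [div_pow]; ring
        _ ≤ C * (Real.exp (k * θ * L) * Real.exp (η * L)) := by gcongr
        _ = C * Real.exp ((η + k * θ) * L) := by rw [← Real.exp_add]; congr 2; ring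
        _ ≤ C * Real.exp ((1 - σ) * L) := by
            refine mul_le_mul_of_nonneg_left (Real.exp_le_exp.2 ?_) hC
            exact mul_le_mul_of_nonneg_right (by linarith) hL0.le
    have h2 : ((D : ℝ) / K) ^ k ≤ Real.exp ((1 - σ) * L) := by
      refine hpowk.trans (Real.exp_le_exp.2 ?_)
      exact mul_le_mul_of_nonneg_right (by linarith) hL0.le
    have h3 : 2 ^ (k + 1) * (((p * (k + 1) : ℕ) : ℝ) + 1) ^ (k + 1) * ((D : ℝ) / K) ^ k ≤
        2 ^ (k + 1) * (((p * (k + 1) : ℕ) : ℝ) + 1) ^ (k + 1) * Real.exp ((1 - σ) * L) :=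
      mul_le_mul_of_nonneg_left h2 (by positivity)
    have h4 : 0 ≤ (1 + 2 ^ (1 + 1) * (((p * (1 + 1) : ℕ) : ℝ) + 1) ^ (1 + 1)) *
        Real.exp ((1 - σ) * L) := by positivity
    rw [hB, hC', add_mul, add_mul]
    exact (add_le_add h1 h3).trans (le_add_of_nonneg_right h4)
  -- the exceptional edges
  set Ψ₂ : Finset (Fin 2 → V) := univ.filter (fun ψ => R (ψ 0) (ψ 1)) with hΨ₂
  have hΨ₂2 : ∀ ψ ∈ Ψ₂, Function.Injective ψ ∧ IsHom (⊤ : SimpleGraph (Fin 2)) G ψ := by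
    intro ψ hψ
    rw [hΨ₂, Finset.mem_filter] at hψ
    have h1 : G.Adj (ψ 0) (ψ 1) := hRG _ _ hψ.2
    have h2 : IsHom (⊤ : SimpleGraph (Fin 2)) G ψ := by
      intro a b hab
      have hab' : a ≠ b := hab
      fin_cases a <;> fin_cases b
      · exact absurd rfl hab'
      · exact h1
      · exact h1.symm
      · exact absurd rfl hab'
    refine ⟨?_, h2⟩
    intro a b hab
    by_contra hne
    exact G.irrefl (hab ▸ h2 a b hne)
  have hBv₂ : ∀ v, ((Tch G (1 : Fin 2) Ψ₂ v).card : ℝ) / (K : ℝ) ^ 1 +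
      2 ^ (1 + 1) * (((p * (1 + 1) : ℕ) : ℝ) + 1) ^ (1 + 1) * ((D : ℝ) / K) ^ 1 ≤ B := by
    intro v
    have h1 : ((Tch G (1 : Fin 2) Ψ₂ v).card : ℝ) ≤ D * Real.exp ((1 - β) * L) := by
      have hsub : Tch G (1 : Fin 2) Ψ₂ v ⊆ (G.neighborFinset v).biUnion (fun u =>
          (univ.filter (fun w => R u w)).image (fun w => ![u, w])) := by
        intro ψ hψ
        obtain ⟨h1, z, hz, hz2⟩ := mem_tch.1 hψ
        have hz0 : z = 0 := by
          fin_cases z
          · rfl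
          · exact absurd rfl hz
        subst hz0
        rw [Finset.mem_biUnion]
        refine ⟨ψ 0, by rw [SimpleGraph.mem_neighborFinset]; exact hz2, ?_⟩
        rw [Finset.mem_image]
        refine ⟨ψ 1, ?_, ?_⟩
        · rw [Finset.mem_filter]
          rw [hΨ₂, Finset.mem_filter] at h1
          exact ⟨Finset.mem_univ _, h1.2⟩
        · funext i
          fin_cases i <;> rfl
      have h2 := Finset.card_le_card hsub
      have h3 : ((Tch G (1 : Fin 2) Ψ₂ v).card : ℝ) ≤ ∑ u ∈ G.neighborFinset v,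
          (((univ.filter (fun w => R u w)).image (fun w => (![u, w] : Fin 2 → V))).card : ℝ) := by
        exact_mod_cast h2.trans Finset.card_biUnion_le
      refine h3.trans ?_
      have h4 : ∀ u ∈ G.neighborFinset v,
          (((univ.filter (fun w => R u w)).image (fun w => (![u, w] : Fin 2 → V))).card : ℝ) ≤
            Real.exp ((1 - β) * L) := by
        intro u _
        refine le_trans ?_ (hRc u)
        exact_mod_cast Finset.card_image_le
      refine (Finset.sum_le_sum h4).trans ?_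
      rw [Finset.sum_const, nsmul_eq_mul]
      refine mul_le_mul_of_nonneg_right ?_ (Real.exp_pos _).le
      rw [SimpleGraph.card_neighborFinset_eq_degree]
      exact_mod_cast hdeg v
    have h2 : ((Tch G (1 : Fin 2) Ψ₂ v).card : ℝ) / (K : ℝ) ^ 1 ≤ Real.exp ((1 - σ) * L) := by
      rw [pow_one]
      calc ((Tch G (1 : Fin 2) Ψ₂ v).card : ℝ) / (K : ℝ)
          ≤ (D * Real.exp ((1 - β) * L)) / K := div_le_div_of_nonneg_right h1 hKpos.le
        _ = ((D : ℝ) / K) * Real.exp ((1 - β) * L) := by ring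
        _ ≤ Real.exp (θ * L) * Real.exp ((1 - β) * L) := by gcongr
        _ = Real.exp ((1 - β + θ) * L) := by rw [← Real.exp_add]; congr 1; ring
        _ ≤ Real.exp ((1 - σ) * L) :=
            Real.exp_le_exp.2 (mul_le_mul_of_nonneg_right (by linarith) hL0.le)
    have h3 : ((D : ℝ) / K) ^ 1 ≤ Real.exp ((1 - σ) * L) := by
      rw [pow_one]
      refine hDK1.trans (Real.exp_le_exp.2 ?_)
      exact mul_le_mul_of_nonneg_right (by linarith) hL0.le
    have h4 : 2 ^ (1 + 1) * (((p * (1 + 1) : ℕ) : ℝ) + 1) ^ (1 + 1) * ((D : ℝ) / K) ^ 1 ≤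
        2 ^ (1 + 1) * (((p * (1 + 1) : ℕ) : ℝ) + 1) ^ (1 + 1) * Real.exp ((1 - σ) * L) :=
      mul_le_mul_of_nonneg_left h3 (by positivity)
    have h5 : 0 ≤ (C + 2 ^ (k + 1) * (((p * (k + 1) : ℕ) : ℝ) + 1) ^ (k + 1)) *
        Real.exp ((1 - σ) * L) := by positivity
    rw [hB, hC', add_mul, add_mul 1]
    linarith
  -- the local lemma condition
  have hBm : B / m0 ≤ C' * Real.exp (-(σ / 2 * L)) := by
    rw [div_le_iff₀ hm0pos, hB]
    have h2 : Real.exp ((1 - σ) * L) =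
        Real.exp (-(σ / 2 * L)) * Real.exp ((1 - σ / 2) * L) := by
      rw [← Real.exp_add]; congr 1; ring
    calc C' * Real.exp ((1 - σ) * L)
        = C' * Real.exp (-(σ / 2 * L)) * Real.exp ((1 - σ / 2) * L) := by rw [h2]; ring
      _ ≤ C' * Real.exp (-(σ / 2 * L)) * m0 :=
          mul_le_mul_of_nonneg_left hm0l (mul_nonneg hC'0.le (Real.exp_pos _).le)
  have hDp : ((D : ℝ) + 1) ^ (2 * (h + 1)) ≤ 2 ^ (2 * (h + 1)) * Real.exp ((2 * (h + 1) : ℝ) * L) := by
    calc ((D : ℝ) + 1) ^ (2 * (h + 1)) ≤ (2 * D) ^ (2 * (h + 1)) :=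
          pow_le_pow_left₀ (by linarith) (by linarith) _
      _ = 2 ^ (2 * (h + 1)) * Real.exp ((2 * (h + 1) : ℝ) * L) := by
          rw [mul_pow, hDexp, ← Real.exp_nat_mul]
          push_cast
          rfl
  have hDp0 : 0 ≤ ((D : ℝ) + 1) ^ (2 * (h + 1)) := by positivity
  have hT1 : (B / m0) ^ p * ((D : ℝ) + 1) ^ (2 * (h + 1)) ≤ 1 / 16 := by
    have h1 : (B / m0) ^ p ≤ C' ^ p * Real.exp (-((2 * (h + 1) + 1 : ℝ) * L)) := by
      calc (B / m0) ^ p ≤ (C' * Real.exp (-(σ / 2 * L))) ^ p :=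
            pow_le_pow_left₀ (by positivity) hBm p
        _ = C' ^ p * Real.exp (-(p * (σ / 2) * L)) := by
            rw [mul_pow, ← Real.exp_nat_mul]; congr 2; ring
        _ ≤ C' ^ p * Real.exp (-((2 * (h + 1) + 1 : ℝ) * L)) := by
            refine mul_le_mul_of_nonneg_left (Real.exp_le_exp.2 ?_) (by positivity)
            have := mul_le_mul_of_nonneg_right hpσ hL0.le
            linarith
    calc (B / m0) ^ p * ((D : ℝ) + 1) ^ (2 * (h + 1))
        ≤ (C' ^ p * Real.exp (-((2 * (h + 1) + 1 : ℝ) * L))) *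
          (2 ^ (2 * (h + 1)) * Real.exp ((2 * (h + 1) : ℝ) * L)) :=
          mul_le_mul h1 hDp hDp0 (by positivity)
      _ = (C' ^ p * 2 ^ (2 * (h + 1))) * (Real.exp (-((2 * (h + 1) + 1 : ℝ) * L)) *
            Real.exp ((2 * (h + 1) : ℝ) * L)) := by ring
      _ = (C' ^ p * 2 ^ (2 * (h + 1))) * Real.exp (-L) := by
          rw [← Real.exp_add]; congr 2; ring
      _ ≤ (C' ^ p * 2 ^ (2 * (h + 1))) * (1 / (16 * (C' ^ p * 2 ^ (2 * (h + 1))))) :=
          mul_le_mul_of_nonneg_left e3 (by positivity)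
      _ = 1 / 16 := by field_simp
  have hT2 : (K : ℝ) * Real.exp (-(δ ^ 2 * D / (3 * K))) * ((D : ℝ) + 1) ^ (2 * (h + 1)) ≤
      1 / 8 := by
    have h1 : Real.exp (-(δ ^ 2 * D / (3 * K))) ≤ Real.exp (-((2 * (h + 1) + 2 : ℝ) * L)) := by
      apply Real.exp_le_exp.2
      have h2 : δ ^ 2 * D / (3 * K) = 2 * a * ((D : ℝ) / K) := by
        rw [ha]; field_simp; ring
      have h3 : (θ * L) ^ 2 / 2 ≤ Real.exp (θ * L) := by
        have := Real.quadratic_le_exp_of_nonneg (x := θ * L) (by positivity)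
        have h4 : 0 ≤ θ * L := by positivity
        linarith
      have h4 : a * Real.exp (θ * L) ≤ δ ^ 2 * D / (3 * K) := by
        rw [h2]
        have := mul_le_mul_of_nonneg_left hDK2 (show 0 ≤ 2 * a by linarith)
        linarith
      have h5 : (2 * (h + 1) + 2 : ℝ) * L ≤ a * Real.exp (θ * L) := by
        have h6 := mul_le_mul_of_nonneg_right e4 hL0.le
        have h7 := mul_le_mul_of_nonneg_left h3 ha0.le
        have h8 : a * ((θ * L) ^ 2 / 2) = a * θ ^ 2 / 2 * L * L := by ring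
        linarith
      linarith
    have h2 : (K : ℝ) ≤ 2 * Real.exp L := by
      rw [← hDexp]
      have : (K : ℝ) ≤ D := by exact_mod_cast hKD
      linarith
    calc (K : ℝ) * Real.exp (-(δ ^ 2 * D / (3 * K))) * ((D : ℝ) + 1) ^ (2 * (h + 1))
        ≤ (2 * Real.exp L) * Real.exp (-((2 * (h + 1) + 2 : ℝ) * L)) *
          (2 ^ (2 * (h + 1)) * Real.exp ((2 * (h + 1) : ℝ) * L)) := by
          refine mul_le_mul (mul_le_mul h2 h1 (Real.exp_pos _).le (by positivity)) hDp hDp0 ?_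
          positivity
      _ = (2 * 2 ^ (2 * (h + 1))) * (Real.exp L * Real.exp (-((2 * (h + 1) + 2 : ℝ) * L)) *
            Real.exp ((2 * (h + 1) : ℝ) * L)) := by ring
      _ = (2 * 2 ^ (2 * (h + 1))) * Real.exp (-L) := by
          rw [← Real.exp_add, ← Real.exp_add]; congr 2; ring
      _ ≤ (2 * 2 ^ (2 * (h + 1))) * (1 / (8 * (2 * 2 ^ (2 * (h + 1))))) :=
          mul_le_mul_of_nonneg_left e5 (by positivity)
      _ = 1 / 8 := by field_simp
  have hLLL : 4 * (K * Real.exp (-(δ ^ 2 * D / (3 * K))) + (B / m0) ^ p + (B / m0) ^ p) *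
      ((D + 1) ^ (2 * (h + 1)) : ℕ) ≤ 1 := by
    push_cast
    calc 4 * (K * Real.exp (-(δ ^ 2 * D / (3 * K))) + (B / m0) ^ p + (B / m0) ^ p) *
          ((D : ℝ) + 1) ^ (2 * (h + 1)) =
        4 * (K * Real.exp (-(δ ^ 2 * D / (3 * K))) * ((D : ℝ) + 1) ^ (2 * (h + 1)) +
          2 * ((B / m0) ^ p * ((D : ℝ) + 1) ^ (2 * (h + 1)))) := by ring
      _ ≤ 1 := by linarith
  obtain ⟨t, ht1, ht2, ht3, ht4⟩ := mono_types2 G p h m0 m0 hK1 hKD hdeg H0 hH0 hU x Ψ hΨ
    (fun ψ hψ a b => near_mono (by omega) (near_map (hΨ ψ hψ).2 (hh0 a b))) B hB0 hBv hm01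
    (⊤ : SimpleGraph (Fin 2)) SimpleGraph.connected_top (by simp) (1 : Fin 2) Ψ₂ hΨ₂2
    (fun ψ hψ a b => by
      by_cases hab : a = b
      · rw [hab]; exact ⟨SimpleGraph.Walk.nil, by simp⟩
      · exact near_mono (by omega) (near_adj ((hΨ₂2 ψ hψ).2 a b hab)))
    B hB0 hBv₂ hm01 δ hδ0.le (by linarith) hLLL
  -- bad vertices
  set bad : V → Prop := fun u => (∃ ψ ∈ Ψ, (∀ a b, t (ψ a) = t (ψ b)) ∧ ∃ z, z ≠ x ∧ ψ z = u) ∨
    ∃ w, R u w ∧ t u = t w with hbad
  have hx2 : ∃ z, z ≠ x := by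
    have h1 : 1 < Fintype.card U := by omega
    obtain ⟨z, hz⟩ := Fintype.exists_ne_of_one_lt_card h1 x
    exact ⟨z, hz⟩
  -- the parts
  set t' : V → ℕ := fun v => 2 * t v + cl v with ht'
  have ht'1 : ∀ v, t' v < 2 * K := by
    intro v
    have h1 := ht1 v
    have h2 := hcl v
    rw [ht']
    simp only
    omega
  have ht'2 : ∀ u w, t' u = t' w → t u = t w ∧ cl u = cl w := by
    intro u w huw
    have h2 := hcl u
    have h3 := hcl w
    rw [ht'] at huw
    simp only at huw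
    omega
  -- colour the parts
  have hpart1 : ∃ n1 : ℕ, (n1 : ℝ) ≤ (c + δ) * ((1 + δ) * D / K / Real.log ((1 + δ) * D / K)) ∧
      ∀ y < 2 * K, ColOn G {v | v ∈ (Set.univ : Set V) ∧ t' v = y ∧ ¬ bad v} n1 := by
    have hex : ∀ y, ∃ n : ℕ, (n : ℝ) ≤ (c + δ) * ((1 + δ) * D / K / Real.log ((1 + δ) * D / K)) ∧
        ColOn G {v | v ∈ (Set.univ : Set V) ∧ t' v = y ∧ ¬ bad v} n := by
      intro y
      refine hy₀ ((1 + δ) * D / K) ?_ V G _ ?_ ?_
      · have h1 : y₀ ≤ (D : ℝ) / K := by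
          have := le_max_left y₀ 2
          linarith
        have h2 : (1 + δ) * D / K = (1 + δ) * ((D : ℝ) / K) := by ring
        rw [h2]
        have h3 : 0 ≤ δ * ((D : ℝ) / K) := by positivity
        linarith
      · intro T hT hTC
        have hcls : ∀ u ∈ T, ∀ w ∈ T, t u = t w ∧ cl u = cl w := by
          intro u hu w hw
          exact ht'2 u w ((hT hu).2.1.trans (hT hw).2.1.symm)
        obtain ⟨ψ, hψ, hψT⟩ := hhit T (fun u hu w hw => (hcls u hu w hw).2)
          (fun u hu w hw hR => (hT hu).2.2 (Or.inr ⟨w, hR, (hcls u hu w hw).1⟩)) hTC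
        obtain ⟨z, hz⟩ := hx2
        exact (hT (hψT ⟨z, rfl⟩)).2.2 (Or.inl ⟨ψ, hψ, fun a b =>
          (hcls _ (hψT ⟨a, rfl⟩) _ (hψT ⟨b, rfl⟩)).1, z, hz, rfl⟩)
      · intro v _
        have a2 : ((⌊(1 + δ) * D / K⌋₊ : ℕ) : ℝ) ≤ (1 + δ) * D / K :=
          Nat.floor_le (by positivity)
        have a1 := filt_le (G.neighborFinset v) {v | v ∈ (Set.univ : Set V) ∧ t' v = y ∧ ¬ bad v}
          (fun u => t u = y / 2) (fun u _ hu => by
            have h1 := hu.2.1
            have h2 := hcl u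
            rw [ht'] at h1
            simp only at h1
            show t u = y / 2
            omega)
        exact (Nat.cast_le (α := ℝ).2 (a1.trans (ht2 v (y / 2)))).trans a2
    choose nn hnn1 hnn2 using hex
    refine ⟨(Finset.range (2 * K)).sup nn, ?_, ?_⟩
    · obtain ⟨y, -, hy⟩ := Finset.exists_mem_eq_sup (Finset.range (2 * K))
        ⟨0, Finset.mem_range.2 (by omega)⟩ nn
      rw [hy]; exact hnn1 y
    · intro y hy
      obtain ⟨f, hf1, hf2⟩ := hnn2 y
      exact ⟨f, fun v hv => lt_of_lt_of_le (hf1 v hv)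
        (Finset.le_sup (f := nn) (Finset.mem_range.2 hy)), hf2⟩
  obtain ⟨n1, hn1, hc1⟩ := hpart1
  -- colour the bad vertices
  have hbadnbr : ∀ v, ((G.neighborFinset v).filter (fun u => bad u)).card ≤ (k + 1) * m0 := by
    intro v
    have hsub : (G.neighborFinset v).filter (fun u => bad u) ⊆
        (((Tch G x Ψ v).filter (fun ψ => ∀ a b, t (ψ a) = t (ψ b))).biUnion
          (fun ψ => (univ.erase x).image ψ)) ∪
        ((Tch G (1 : Fin 2) Ψ₂ v).filter (fun ψ => ∀ a b, t (ψ a) = t (ψ b))).image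
          (fun ψ => ψ 0) := by
      intro u hu
      rw [Finset.mem_filter, SimpleGraph.mem_neighborFinset] at hu
      rw [Finset.mem_union]
      obtain ⟨huv, ⟨ψ, hψ, hm, z, hz, hzu⟩ | ⟨w, hR, htw⟩⟩ := hu
      · left
        rw [Finset.mem_biUnion]
        refine ⟨ψ, ?_, ?_⟩
        · rw [Finset.mem_filter]
          exact ⟨mem_tch.2 ⟨hψ, z, hz, by rw [hzu]; exact huv⟩, hm⟩
        · rw [Finset.mem_image]
          exact ⟨z, Finset.mem_erase.2 ⟨hz, Finset.mem_univ _⟩, hzu⟩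
      · right
        rw [Finset.mem_image]
        refine ⟨![u, w], ?_, rfl⟩
        rw [Finset.mem_filter]
        refine ⟨mem_tch.2 ⟨?_, 0, by decide, huv⟩, ?_⟩
        · rw [hΨ₂, Finset.mem_filter]
          exact ⟨Finset.mem_univ _, hR⟩
        · intro a b
          fin_cases a <;> fin_cases b
          · rfl
          · exact htw
          · exact htw.symm
          · rfl
    refine (Finset.card_le_card hsub).trans ((Finset.card_union_le _ _).trans ?_)
    have h1 : (((Tch G x Ψ v).filter (fun ψ => ∀ a b, t (ψ a) = t (ψ b))).biUnion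
          (fun ψ => (univ.erase x).image ψ)).card ≤ k * m0 := by
      refine (Finset.card_biUnion_le_card_mul _ _ k ?_).trans ?_
      · intro ψ _
        refine Finset.card_image_le.trans ?_
        rw [Finset.card_erase_of_mem (Finset.mem_univ _), Finset.card_univ, hU, Nat.add_sub_cancel]
      · rw [mul_comm]
        exact Nat.mul_le_mul_left _ (ht3 v).le
    have h2 : (((Tch G (1 : Fin 2) Ψ₂ v).filter (fun ψ => ∀ a b, t (ψ a) = t (ψ b))).image
          (fun ψ => ψ 0)).card ≤ m0 := by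
      refine Finset.card_image_le.trans ?_
      have h3 := (ht4 v).le
      convert h3
    have h3 : (k + 1) * m0 = k * m0 + m0 := by ring
    omega
  obtain ⟨γ, hγ1, hγ2⟩ := degen (fun v => (G.neighborFinset v).filter (fun u => bad u))
    ((k + 1) * m0) hbadnbr (fun v => by simp) _ univ rfl
  refine ⟨(2 * K) * n1 + (2 * ((k + 1) * m0) + 1) * 1, ?_, assemble G Set.univ t' γ (2 * K)
    (2 * ((k + 1) * m0) + 1) n1 1 bad ht'1 hγ1 hc1 ?_⟩
  · push_cast
    -- main term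
    have hY : (0 : ℝ) < (1 + δ) * D / K := by positivity
    have hY2 : Real.exp (θ * L) / 2 ≤ (1 + δ) * D / K := by
      have h2 : (1 + δ) * D / K = (D : ℝ) / K + δ * ((D : ℝ) / K) := by ring
      have h3 : 0 ≤ δ * ((D : ℝ) / K) := by positivity
      linarith
    have hlogY : (1 - δ) * θ * L ≤ Real.log ((1 + δ) * D / K) := by
      have h1 : Real.log (Real.exp (θ * L) / 2) ≤ Real.log ((1 + δ) * D / K) :=
        Real.log_le_log (by positivity) hY2
      rw [Real.log_div (Real.exp_pos _).ne' two_ne_zero, Real.log_exp] at h1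
      have h2 : θ * L - (δ * θ) * L = (1 - δ) * θ * L := by ring
      linarith
    have hinv : 1 / (1 - δ) ≤ 1 + 2 * δ := by
      rw [div_le_iff₀ (by linarith)]
      have := mul_nonneg hδ0.le (show (0 : ℝ) ≤ 1 - 2 * δ by linarith)
      linarith
    have hδ1 : 0 < 1 - δ := by linarith
    have hDL : 0 ≤ (D : ℝ) / L := by positivity
    have f1 : (2 * (K : ℝ)) * n1 ≤ (2 * c / θ + ε / 2) * ((D : ℝ) / L) := by
      have g1 : (1 + δ) * D / K / Real.log ((1 + δ) * D / K) ≤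
          (1 + δ) * D / K / ((1 - δ) * θ * L) :=
        div_le_div_of_nonneg_left hY.le (by positivity) hlogY
      calc (2 * (K : ℝ)) * n1 ≤ (2 * K) * ((c + δ) * ((1 + δ) * D / K /
              Real.log ((1 + δ) * D / K))) :=
            mul_le_mul_of_nonneg_left hn1 (by positivity)
        _ ≤ (2 * K) * ((c + δ) * ((1 + δ) * D / K / ((1 - δ) * θ * L))) := by gcongr
        _ = 2 / θ * ((c + δ) * ((1 + δ) * (1 / (1 - δ)))) * ((D : ℝ) / L) := by
            field_simp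
        _ ≤ 2 / θ * ((c + δ) * ((1 + δ) * (1 + 2 * δ))) * ((D : ℝ) / L) := by gcongr
        _ ≤ (2 * c / θ + ε / 2) * ((D : ℝ) / L) := by
            refine mul_le_mul_of_nonneg_right ?_ hDL
            have h0 := mul_nonneg hδ0.le (show (0 : ℝ) ≤ 1 - δ by linarith)
            have h1 : (1 + δ) * (1 + 2 * δ) ≤ 1 + 5 * δ := by linarith
            have h3 : (c + δ) * ((1 + δ) * (1 + 2 * δ)) ≤ (c + δ) * (1 + 5 * δ) :=
              mul_le_mul_of_nonneg_left h1 (by linarith)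
            have h4 : (c + δ) * (1 + 5 * δ) ≤ c + δ * (5 * c + 6) := by linarith
            have h5 : δ * (4 * (5 * c + 6)) ≤ ε * θ := by
              rwa [le_div_iff₀ (by positivity)] at hδε
            calc 2 / θ * ((c + δ) * ((1 + δ) * (1 + 2 * δ))) ≤ 2 / θ * (c + δ * (5 * c + 6)) :=
                  mul_le_mul_of_nonneg_left (h3.trans h4) (by positivity)
              _ ≤ 2 / θ * (c + ε * θ / 4) := by
                  refine mul_le_mul_of_nonneg_left ?_ (by positivity)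
                  linarith
              _ = 2 * c / θ + ε / 2 := by field_simp; ring
    have f2 : 2 * (((k : ℝ) + 1) * m0) + 1 ≤ (ε / 2) * ((D : ℝ) / L) := by
      have g1 : 2 * (((k : ℝ) + 1) * m0) + 1 ≤
          (4 * (k + 1) + 1) * Real.exp ((1 - σ / 2) * L) := by
        have := mul_le_mul_of_nonneg_left hm0u (show (0 : ℝ) ≤ 2 * (k + 1) by positivity)
        linarith
      have g2 : Real.exp ((1 - σ / 2) * L) = D * Real.exp (-(σ / 2 * L)) := by
        rw [hDexp, ← Real.exp_add]; congr 1; ring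
      have g3 : Real.exp (-(σ / 2 * L)) * L ≤ ε / (2 * (4 * (k + 1) + 1)) := by
        refine le_trans ?_ e6
        rw [pow_one]
        exact mul_le_mul_of_nonneg_left (by linarith) (Real.exp_pos _).le
      rw [le_div_iff₀ (by positivity)] at g3
      refine g1.trans ?_
      rw [g2, mul_div_assoc', le_div_iff₀ hL0]
      have g4 := mul_le_mul_of_nonneg_left g3 (show (0 : ℝ) ≤ D by linarith)
      linarith
    have f3 : (2 * c / θ + ε / 2) * ((D : ℝ) / L) + (ε / 2) * ((D : ℝ) / L) =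
        (2 * c / θ + ε) * ((D : ℝ) / L) := by ring
    linarith
  · intro l _
    refine ⟨fun _ => 0, fun v _ => one_pos, ?_⟩
    intro u hu v hv huv
    exfalso
    exact hγ2 u (Finset.mem_univ _) v (Finset.mem_univ _) (by
      rw [Finset.mem_filter, SimpleGraph.mem_neighborFinset]
      exact ⟨huv, hv.2.2⟩) (hu.2.1.trans hv.2.1.symm)

end Pool.Agent.K1H34.AKS
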