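import Mathlib

set_option autoImplicit false

/-!
# Level decompositions

`Bad` and `S` are monotone operations on the sets of vertices; `Bad W` is much smaller than `W`, while
`S W` is at most moderately larger than `W`. There is a system of levels such that no vertex `v` is in
`Bad` of the set of the vertices whose level is at least that of `v`, nor in `S` of the set of the
vertices whose level is larger by at least two.
-/

namespace Pool.Agent.K1H34.AKS

open Finset Classical

variable {V : Type} [Fintype V]

/-- one step of the iteration -/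
noncomputable def stp (Bad S : Finset V → Finset V) (X : ℕ → Finset V) : ℕ → Finset V :=
  fun i => if i = 0 then univ else Bad (X (i - 1)) ∪ S (X (i + 1))

/-- the iteration -/
noncomputable def itr (Bad S : Finset V → Finset V) : ℕ → ℕ → Finset V
  | 0 => fun i => if i = 0 then univ else ∅
  | n + 1 => stp Bad S (itr Bad S n)

theorem itr_zero (Bad S : Finset V → Finset V) (n : ℕ) : itr Bad S n 0 = univ := by
  cases n <;> simp [itr, stp]

theorem itr_succ (Bad S : Finset V → Finset V) (n i : ℕ) :
    itr Bad S (n + 1) (i + 1) = Bad (itr Bad S n i) ∪ S (itr Bad S n (i + 2)) := by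
  simp [itr, stp]

theorem itr_mono {Bad S : Finset V → Finset V} (hB : Monotone Bad) (hS : Monotone S) (n : ℕ) :
    ∀ i, itr Bad S n i ⊆ itr Bad S (n + 1) i := by
  induction n with
  | zero =>
    intro i
    cases i with
    | zero => rw [itr_zero, itr_zero]
    | succ i => simp [itr]
  | succ n ih =>
    intro i
    cases i with
    | zero => rw [itr_zero, itr_zero]
    | succ i =>
      rw [itr_succ, itr_succ]
      exact Finset.union_subset_union (hB (ih i)) (hS (ih (i + 2)))

theorem itr_anti {Bad S : Finset V → Finset V} (hB : Monotone Bad) (hS : Monotone S) (n : ℕ) :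
    ∀ i, itr Bad S n (i + 1) ⊆ itr Bad S n i := by
  induction n with
  | zero =>
    intro i
    simp [itr]
  | succ n ih =>
    intro i
    cases i with
    | zero => rw [itr_zero]; exact Finset.subset_univ _
    | succ i =>
      rw [itr_succ, itr_succ]
      exact Finset.union_subset_union (hB (ih i)) (hS (ih (i + 2)))

theorem itr_card {Bad S : Finset V → Finset V} {a b : ℝ} (ha : 0 < a) (hb : 0 ≤ b)
    (hab : 4 * a * b ≤ 1) (hBc : ∀ W, ((Bad W).card : ℝ) ≤ a * W.card)
    (hSc : ∀ W, ((S W).card : ℝ) ≤ b * W.card) (n : ℕ) :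
    ∀ i, ((itr Bad S n i).card : ℝ) ≤ (2 * a) ^ i * Fintype.card V := by
  induction n with
  | zero =>
    intro i
    cases i with
    | zero => simp [itr]
    | succ i => simp only [itr, Nat.add_eq_zero_iff, one_ne_zero, and_false, if_false,
        Finset.card_empty, Nat.cast_zero]; positivity
  | succ n ih =>
    intro i
    cases i with
    | zero => rw [itr_zero]; simp
    | succ i =>
      rw [itr_succ]
      have h1 : (((Bad (itr Bad S n i)) ∪ S (itr Bad S n (i + 2))).card : ℝ) ≤
          ((Bad (itr Bad S n i)).card : ℝ) + ((S (itr Bad S n (i + 2))).card : ℝ) := by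
        exact_mod_cast Finset.card_union_le _ _
      have h2 := (hBc (itr Bad S n i)).trans (mul_le_mul_of_nonneg_left (ih i) ha.le)
      have h3 := (hSc (itr Bad S n (i + 2))).trans (mul_le_mul_of_nonneg_left (ih (i + 2)) hb)
      have h4 : a * ((2 * a) ^ i * (Fintype.card V : ℝ)) +
          b * ((2 * a) ^ (i + 2) * (Fintype.card V : ℝ)) =
          (1 / 2 + 2 * a * b) * ((2 * a) ^ (i + 1) * (Fintype.card V : ℝ)) := by ring
      have h5 : (1 / 2 + 2 * a * b) * ((2 * a) ^ (i + 1) * (Fintype.card V : ℝ)) ≤
          1 * ((2 * a) ^ (i + 1) * (Fintype.card V : ℝ)) :=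
        mul_le_mul_of_nonneg_right (by linarith) (by positivity)
      linarith

/-- **Level decomposition.** -/
theorem levels (Bad S : Finset V → Finset V) (hB : Monotone Bad) (hS : Monotone S) {a b : ℝ}
    (ha : 0 < a) (ha2 : 2 * a < 1) (hb : 0 ≤ b) (hab : 4 * a * b ≤ 1)
    (hBc : ∀ W, ((Bad W).card : ℝ) ≤ a * W.card)
    (hSc : ∀ W, ((S W).card : ℝ) ≤ b * W.card) :
    ∃ lev : V → ℕ, ∀ v, v ∉ Bad (univ.filter (fun w => lev v ≤ lev w)) ∧
      v ∉ S (univ.filter (fun w => lev v + 2 ≤ lev w)) := by
  -- the sets are empty from some index on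
  obtain ⟨M, hM⟩ : ∃ M : ℕ, (2 * a) ^ M * (Fintype.card V : ℝ) < 1 := by
    have h1 : Filter.Tendsto (fun M : ℕ => (2 * a) ^ M * (Fintype.card V : ℝ)) Filter.atTop
        (nhds (0 * (Fintype.card V : ℝ))) :=
      (tendsto_pow_atTop_nhds_zero_of_lt_one (by linarith) ha2).mul_const _
    rw [zero_mul] at h1
    exact (h1.eventually_lt_const one_pos).exists
  have hanti : ∀ n i j, i ≤ j → itr Bad S n j ⊆ itr Bad S n i := by
    intro n i j hij
    induction j, hij using Nat.le_induction with
    | base => exact Finset.Subset.refl _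
    | succ j _ ih => exact (itr_anti hB hS n j).trans ih
  have hmono : ∀ i n m, n ≤ m → itr Bad S n i ⊆ itr Bad S m i := by
    intro i n m hnm
    induction m, hnm using Nat.le_induction with
    | base => exact Finset.Subset.refl _
    | succ m _ ih => exact ih.trans (itr_mono hB hS m i)
  have hempty : ∀ n i, M ≤ i → itr Bad S n i = ∅ := by
    intro n i hi
    have h1 : itr Bad S n M = ∅ := by
      rw [← Finset.card_eq_zero]
      have h2 := (itr_card ha hb hab hBc hSc n M).trans_lt hM
      have h3 : (itr Bad S n M).card < 1 := by exact_mod_cast h2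
      omega
    exact Finset.subset_empty.1 (h1 ▸ hanti n M i hi)
  -- stabilization
  have hst : ∀ i, ∃ N, ∀ m, N ≤ m → itr Bad S N i = itr Bad S m i := by
    intro i
    obtain ⟨N, hN⟩ := WellFoundedGT.monotone_chain_condition
      (⟨fun n => itr Bad S n i, fun n m h => hmono i n m h⟩ : ℕ →o Finset V)
    exact ⟨N, fun m hm => hN m hm⟩
  choose N hN using hst
  set s0 : ℕ := (Finset.range M).sup N with hs0
  have hfix : ∀ i, itr Bad S s0 i = itr Bad S (s0 + 1) i := by
    intro i
    by_cases hi : i < M
    · have h1 : N i ≤ s0 := Finset.le_sup (f := N) (Finset.mem_range.2 hi)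
      rw [← hN i s0 h1, ← hN i (s0 + 1) (by omega)]
    · rw [hempty _ i (by omega), hempty _ i (by omega)]
  set X : ℕ → Finset V := itr Bad S s0 with hX
  have hXs : ∀ i, X (i + 1) = Bad (X i) ∪ S (X (i + 2)) := by
    intro i
    rw [hfix (i + 1), itr_succ]
  have hX0 : X 0 = univ := itr_zero Bad S s0
  -- the level
  refine ⟨fun v => Nat.findGreatest (fun i => v ∈ X i) M, ?_⟩
  have hlev : ∀ v i, i ≤ Nat.findGreatest (fun i => v ∈ X i) M ↔ v ∈ X i := by
    intro v i
    constructor
    · intro h
      have h1 : v ∈ X (Nat.findGreatest (fun i => v ∈ X i) M) :=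
        Nat.findGreatest_spec (P := fun i => v ∈ X i) (Nat.zero_le M) (by
          show v ∈ X 0
          rw [hX0]; exact Finset.mem_univ _)
      exact hanti s0 _ _ h h1
    · intro h
      refine Nat.le_findGreatest ?_ h
      by_contra hcon
      rw [hX, hempty s0 i (by omega)] at h
      exact absurd h (Finset.notMem_empty _)
  intro v
  have h1 : ∀ i, univ.filter (fun w => i ≤ Nat.findGreatest (fun i => w ∈ X i) M) = X i := by
    intro i
    ext w
    rw [Finset.mem_filter]
    simp only [Finset.mem_univ, true_and]
    exact hlev w i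
  have h2 : v ∉ X (Nat.findGreatest (fun i => v ∈ X i) M + 1) := by
    intro h
    have := (hlev v _).2 h
    omega
  rw [hXs, Finset.mem_union, not_or] at h2
  refine ⟨?_, ?_⟩
  · simp only
    rw [h1]
    exact h2.1
  · simp only
    rw [h1]
    exact h2.2

end Pool.Agent.K1H34.AKS
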