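import Mathlib
import Pool.Agent.Y388.CF.Basic
import Pool.Agent.K1H34.AKS.Levels
import Pool.Agent.K1H34.AKS.Engine

set_option autoImplicit false

/-!
# Duplicating a vertex of `H` changes `c(H)` by a bounded factor at most
-/

namespace Pool.Agent.K1H34.AKS

open Finset Filter Classical Pool.Agent.Helper311.Glue Pool.Agent.TH855
open scoped ENNReal

set_option linter.unusedSectionVars false

section Count

variable {U V : Type} [Fintype U] [Fintype V]

/-- the copies of `H` in `G[W]` -/
noncomputable def cop (H : SimpleGraph U) (G : SimpleGraph V) (W : Finset V) : Finset (U → V) :=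
  univ.filter (fun ψ => Emb H G ψ ∧ ∀ a, ψ a ∈ W)

theorem mem_cop {H : SimpleGraph U} {G : SimpleGraph V} {W : Finset V} {ψ : U → V} :
    ψ ∈ cop H G W ↔ Emb H G ψ ∧ ∀ a, ψ a ∈ W := by
  rw [cop, Finset.mem_filter]
  simp

theorem cop_mono (H : SimpleGraph U) (G : SimpleGraph V) {W W' : Finset V} (h : W ⊆ W') :
    cop H G W ⊆ cop H G W' := by
  intro ψ hψ
  rw [mem_cop] at hψ ⊢
  exact ⟨hψ.1, fun a => h (hψ.2 a)⟩

/-- the number of copies, if every copy of `H - x` extends in at most `s` ways -/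
theorem cop_card (H : SimpleGraph U) (G : SimpleGraph V) {D k s : ℕ}
    (hD : ∀ v, ∀ N : Finset V, (∀ w ∈ N, G.Adj v w) → N.card ≤ D)
    (hU : Fintype.card U = k + 1) (x : U) (hx : (H.induce {z | z ≠ x}).Connected)
    (hs : ∀ ψ : U → V, Emb H G ψ → ∀ Y : Finset V,
      (∀ y ∈ Y, Emb H G (Function.update ψ x y)) → Y.card ≤ s) (W : Finset V) :
    (cop H G W).card ≤ s * (D ^ (k - 1) * W.card) := by
  set r : (U → V) → ({z | z ≠ x} → V) := fun ψ z => ψ z with hr
  refine (Finset.card_le_mul_card_image (f := r) _ s ?_).trans ?_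
  · intro g hg
    rw [Finset.mem_image] at hg
    obtain ⟨ψ0, hψ0, rfl⟩ := hg
    have hupd : ∀ ψ : U → V, r ψ = r ψ0 → ψ = Function.update ψ0 x (ψ x) := by
      intro ψ hψ
      funext a
      by_cases ha : a = x
      · rw [ha, Function.update_self]
      · rw [Function.update_of_ne ha]
        exact congrFun hψ ⟨a, ha⟩
    have h1 : ((cop H G W).filter (fun ψ => r ψ = r ψ0)).card =
        (((cop H G W).filter (fun ψ => r ψ = r ψ0)).image (fun ψ => ψ x)).card := by
      rw [Finset.card_image_of_injOn]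
      intro ψ hψ ψ' hψ' h
      rw [Finset.mem_coe, Finset.mem_filter] at hψ hψ'
      simp only at h
      rw [hupd ψ hψ.2, hupd ψ' hψ'.2, h]
    rw [h1]
    refine hs ψ0 (mem_cop.1 hψ0).1 _ ?_
    intro y hy
    rw [Finset.mem_image] at hy
    obtain ⟨ψ, hψ, rfl⟩ := hy
    rw [Finset.mem_filter] at hψ
    rw [← hupd ψ hψ.2]
    exact (mem_cop.1 hψ.1).1
  · refine Nat.mul_le_mul_left _ ?_
    set H' := H.induce {z | z ≠ x} with hH'
    have hc : Fintype.card {z | z ≠ x} = k := by
      have : Fintype.card {z | z ≠ x} = Fintype.card {z // z ≠ x} := rfl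
      rw [this, Fintype.card_subtype_compl, hU]
      simp
    obtain ⟨z0⟩ := hx.nonempty
    refine (count_in' H' hx G D hD ({z0} : Finset {z | z ≠ x})
      (Finset.singleton_nonempty _) W _ ?_).trans ?_
    · intro φ hφ
      rw [Finset.mem_image] at hφ
      obtain ⟨ψ, hψ, rfl⟩ := hφ
      rw [mem_cop] at hψ
      refine ⟨?_, ?_⟩
      · intro a b hab
        exact hψ.1.2 a b (by simpa [hH'] using hab)
      · intro a _
        exact hψ.2 a
    · rw [Finset.card_singleton, hc, pow_one]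

/-- double counting: the vertices that are in many of the sets -/
theorem many {ι : Type} (Ψ : Finset ι) (A : ι → Finset V) (k : ℕ) (hA : ∀ i ∈ Ψ, (A i).card ≤ k)
    (M : ℝ) : ((univ.filter (fun w => M < ((Ψ.filter (fun i => w ∈ A i)).card : ℝ))).card : ℝ) * M ≤
      k * Ψ.card := by
  have h1 : ((univ.filter (fun w => M < ((Ψ.filter (fun i => w ∈ A i)).card : ℝ))).card : ℝ) * M ≤
      ∑ w ∈ univ.filter (fun w => M < ((Ψ.filter (fun i => w ∈ A i)).card : ℝ)),
        ((Ψ.filter (fun i => w ∈ A i)).card : ℝ) := by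
    rw [← nsmul_eq_mul]
    refine Finset.card_nsmul_le_sum _ _ _ ?_
    intro w hw
    exact (Finset.mem_filter.1 hw).2.le
  have h2 : ∑ w ∈ univ.filter (fun w => M < ((Ψ.filter (fun i => w ∈ A i)).card : ℝ)),
        ((Ψ.filter (fun i => w ∈ A i)).card : ℝ) ≤
      ∑ w : V, ((Ψ.filter (fun i => w ∈ A i)).card : ℝ) :=
    Finset.sum_le_sum_of_subset_of_nonneg (Finset.subset_univ _) (fun _ _ _ => by positivity)
  have h3 : ∑ w : V, (Ψ.filter (fun i => w ∈ A i)).card = ∑ i ∈ Ψ, (A i).card := by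
    simp only [Finset.card_filter]
    rw [Finset.sum_comm]
    refine Finset.sum_congr rfl (fun i _ => ?_)
    rw [Finset.sum_ite_mem, Finset.univ_inter, Finset.card_eq_sum_ones]
  have h4 : ∑ i ∈ Ψ, (A i).card ≤ k * Ψ.card := by
    rw [mul_comm, ← smul_eq_mul]
    exact Finset.sum_le_card_nsmul _ _ _ hA
  have h5 : ∑ w : V, ((Ψ.filter (fun i => w ∈ A i)).card : ℝ) ≤ k * Ψ.card := by
    exact_mod_cast h3.le.trans h4
  linarith

end Count

/-- **Duplication.** Let `H` be connected, and `H - x` as well. If in `F`-free graphs every copy of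
`H - x` extends to a copy of `H` in at most `s` ways, then `c(F) ≤ 2 |H| c(H)`. -/
theorem core {U W₀ : Type} [Fintype U] (H : SimpleGraph U) (hH : H.Connected) (x : U)
    (hx : (H.induce {z | z ≠ x}).Connected) (F : SimpleGraph W₀) (s : ℕ)
    (hF : ∀ (V : Type) [Fintype V] (G : SimpleGraph V), F.Free G → ∀ ψ : U → V, Emb H G ψ →
      ∀ Y : Finset V, (∀ y ∈ Y, Emb H G (Function.update ψ x y)) → Y.card ≤ s) :
    c F ≤ 2 * Fintype.card U * c H := by
  obtain ⟨k, hU⟩ : ∃ k, Fintype.card U = k + 1 := by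
    refine ⟨Fintype.card U - 1, ?_⟩
    have : 0 < Fintype.card U := Fintype.card_pos_iff.2 ⟨x⟩
    omega
  have hk : 1 ≤ k := by
    obtain ⟨z, hz⟩ := hx.nonempty
    have : 1 < Fintype.card U := Fintype.one_lt_card_iff.2 ⟨z, x, hz⟩
    omega
  by_cases h : c H = ∞
  · have hk0 : (2 : ℝ≥0∞) * (Fintype.card U : ℝ≥0∞) ≠ 0 := by
      rw [hU]
      exact mul_ne_zero two_ne_zero (by exact_mod_cast Nat.succ_ne_zero k)
    rw [h, ENNReal.mul_top hk0]
    exact le_top
  set c0 : ℝ := (c H).toReal with hc0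
  have hc00 : 0 ≤ c0 := ENNReal.toReal_nonneg
  have h1 : UpTo H c0 := upTo_of_c_le H _ hc00 (by rw [hc0, ENNReal.ofReal_toReal h])
  have hGB : GB H c0 := h1.gb hc00
  have hkpos : (0 : ℝ) < k := by exact_mod_cast hk
  suffices h2 : UpTo F (2 * (k + 1) * c0) by
    have h3 := c_le_of_upTo F _ (by positivity) h2
    rw [ENNReal.ofReal_mul (by positivity), hc0, ENNReal.ofReal_toReal h,
      ENNReal.ofReal_mul (by positivity)] at h3
    have h4 : ENNReal.ofReal ((k : ℝ) + 1) = ((Fintype.card U : ℕ) : ℝ≥0∞) := by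
      rw [hU, ← ENNReal.ofReal_natCast]
      push_cast
      rfl
    rw [h4] at h3
    simpa using h3
  intro ε hε
  -- parameters
  set τ : ℝ := ε / (4 * (c0 + 1)) with hτ
  have hτ0 : 0 < τ := by positivity
  set θ : ℝ := 1 / (k + 1 + τ) with hθ
  set η : ℝ := 1 / (k + 1) with hη
  have hθ0 : 0 < θ := by positivity
  have hη0 : 0 < η := by positivity
  have hθη : θ < η := by
    rw [hθ, hη]
    exact one_div_lt_one_div_of_lt (by positivity) (by linarith)
  have hη1 : η ≤ 1 := by
    rw [hη, div_le_one (by positivity)]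
    linarith
  have hkη : η + k * η = 1 := by rw [hη]; field_simp; ring
  have hηθ : η + k * θ < 1 := by
    have := mul_lt_mul_of_pos_left hθη hkpos
    linarith
  set β : ℝ := (θ + η) / 2 with hβ
  have hθβ : θ < β := by rw [hβ]; linarith
  have hβη : β < η := by rw [hβ]; linarith
  have hβ0 : 0 < β := by linarith
  have hmain : 2 * c0 / θ + ε / 2 ≤ 2 * (k + 1) * c0 + ε := by
    have e1 : 2 * c0 / θ = 2 * (k + 1) * c0 + 2 * c0 * τ := by
      rw [hθ]; field_simp
    have e2 : 2 * c0 * τ ≤ ε / 2 := by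
      have : 2 * (c0 + 1) * τ = ε / 2 := by rw [hτ]; field_simp; ring
      have h3 : 2 * c0 * τ ≤ 2 * (c0 + 1) * τ := by
        have := hτ0.le
        linarith
      linarith
    linarith
  obtain ⟨D₁, hD₁⟩ := engine2 H hc00 hGB H hH k hk hU x hθ0 hθβ (by linarith) hη0.le hηθ
    zero_le_one (ε / 2) (by positivity)
  -- eventual inequalities
  set A : ℝ := (k + 1) * s + 1 with hA
  have hA0 : 0 < A := by positivity
  have E1 : ∀ᶠ L : ℝ in atTop, Real.exp (-(η * L)) * (L + 1) ^ 0 ≤ 1 / (4 * A) :=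
    asy_exp hη0 (by positivity) 0
  have E2 : ∀ᶠ L : ℝ in atTop, Real.exp (-((η - β) * L)) * (L + 1) ^ 0 ≤ 1 / (4 * A) :=
    asy_exp (by linarith) (by positivity) 0
  have hlogtend : Tendsto (fun n : ℕ => Real.log (n : ℝ)) atTop atTop :=
    Real.tendsto_log_atTop.comp tendsto_natCast_atTop_atTop
  obtain ⟨D₀, hD₀⟩ := eventually_atTop.1 (hlogtend.eventually (E1.and E2))
  refine ⟨max (max D₀ D₁) 1, ?_⟩
  intro D hD V _ G _ hfree hmax
  obtain ⟨e1, e2⟩ := hD₀ D ((le_max_left _ _).trans ((le_max_left _ _).trans hD))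
  have hDD₁ : D₁ ≤ D := (le_max_right _ _).trans ((le_max_left _ _).trans hD)
  have hD1 : (1 : ℝ) ≤ D := by exact_mod_cast (le_max_right _ _).trans hD
  rw [pow_zero, mul_one] at e1 e2
  set L := Real.log (D : ℝ) with hL
  have hDexp : (D : ℝ) = Real.exp L := by rw [hL, Real.exp_log (by linarith)]
  have hL0 : 0 ≤ L := Real.log_nonneg hD1
  have hdeg : ∀ v, G.degree v ≤ D := fun v => by rw [← hmax]; exact G.degree_le_maxDegree v
  have hD' : ∀ v, ∀ N : Finset V, (∀ w ∈ N, G.Adj v w) → N.card ≤ D := by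
    intro v N hN
    have h1 : N ⊆ G.neighborFinset v := by
      intro w hw
      rw [SimpleGraph.mem_neighborFinset]
      exact hN w hw
    refine (Finset.card_le_card h1).trans ?_
    rw [SimpleGraph.card_neighborFinset_eq_degree]
    exact hdeg v
  -- the operations
  set M₁ : ℝ := (D : ℝ) ^ (k - 1) * Real.exp (η * L) with hM₁
  have hM₁0 : 0 < M₁ := by positivity
  set M₂ : ℝ := Real.exp ((1 - β) * L) with hM₂
  have hM₂0 : 0 < M₂ := Real.exp_pos _
  set im : (U → V) → Finset V := fun ψ => univ.image ψ with him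
  set Bad : Finset V → Finset V := fun W =>
    univ.filter (fun w => M₁ < (((cop H G W).filter (fun ψ => w ∈ im ψ)).card : ℝ)) with hBad
  set S : Finset V → Finset V := fun X =>
    univ.filter (fun w => M₂ < ((X.filter (fun u => w ∈ G.neighborFinset u)).card : ℝ)) with hS
  have hBm : Monotone Bad := by
    intro W W' hWW w hw
    rw [hBad] at hw ⊢
    simp only [Finset.mem_filter, Finset.mem_univ, true_and] at hw ⊢
    refine lt_of_lt_of_le hw ?_
    exact_mod_cast Finset.card_le_card (Finset.filter_subset_filter _ (cop_mono H G hWW))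
  have hSm : Monotone S := by
    intro W W' hWW w hw
    rw [hS] at hw ⊢
    simp only [Finset.mem_filter, Finset.mem_univ, true_and] at hw ⊢
    refine lt_of_lt_of_le hw ?_
    exact_mod_cast Finset.card_le_card (Finset.filter_subset_filter _ hWW)
  set a : ℝ := A * Real.exp (-(η * L)) with ha
  set b : ℝ := Real.exp (β * L) with hb
  have ha0 : 0 < a := by positivity
  have ha2 : 2 * a < 1 := by
    have := mul_le_mul_of_nonneg_left e1 hA0.le
    have h2 : A * (1 / (4 * A)) = 1 / 4 := by field_simp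
    rw [ha]
    linarith
  have hab : 4 * a * b ≤ 1 := by
    have h2 : 4 * a * b = 4 * (A * Real.exp (-((η - β) * L))) := by
      rw [ha, hb]
      have : Real.exp (-((η - β) * L)) = Real.exp (-(η * L)) * Real.exp (β * L) := by
        rw [← Real.exp_add]; congr 1; ring
      rw [this]; ring
    have := mul_le_mul_of_nonneg_left e2 hA0.le
    have h3 : A * (1 / (4 * A)) = 1 / 4 := by field_simp
    rw [h2]
    linarith
  have hBc : ∀ W, ((Bad W).card : ℝ) ≤ a * W.card := by
    intro W
    have g1 : ((Bad W).card : ℝ) * M₁ ≤ ((k + 1 : ℕ) : ℝ) * (cop H G W).card :=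
      many (cop H G W) im (k + 1) (fun ψ _ => by
        rw [him, ← hU]; exact Finset.card_image_le) M₁
    have g2 : ((cop H G W).card : ℝ) ≤ s * ((D : ℝ) ^ (k - 1) * W.card) := by
      exact_mod_cast cop_card H G hD' hU x hx (hF V G hfree) W
    have g3 : ((Bad W).card : ℝ) * M₁ ≤ (a * W.card) * M₁ := by
      have e3 : (a * W.card) * M₁ = A * ((D : ℝ) ^ (k - 1) * W.card) := by
        rw [ha, hM₁]
        have : Real.exp (-(η * L)) * Real.exp (η * L) = 1 := by
          rw [← Real.exp_add, neg_add_cancel, Real.exp_zero]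
        calc A * Real.exp (-(η * L)) * W.card * ((D : ℝ) ^ (k - 1) * Real.exp (η * L)) =
            A * ((D : ℝ) ^ (k - 1) * W.card) * (Real.exp (-(η * L)) * Real.exp (η * L)) := by ring
          _ = _ := by rw [this, mul_one]
      rw [e3, hA]
      rw [Nat.cast_add, Nat.cast_one] at g1
      have e4 : 0 ≤ (D : ℝ) ^ (k - 1) * (W.card : ℝ) :=
        mul_nonneg (pow_nonneg (by linarith) _) (Nat.cast_nonneg _)
      have e5 : (0 : ℝ) ≤ (k : ℝ) + 1 := by positivity
      refine g1.trans ((mul_le_mul_of_nonneg_left g2 e5).trans ?_)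
      rw [← mul_assoc]
      exact mul_le_mul_of_nonneg_right (le_add_of_nonneg_right zero_le_one) e4
    exact le_of_mul_le_mul_right g3 hM₁0
  have hSc : ∀ W, ((S W).card : ℝ) ≤ b * W.card := by
    intro X
    have g1 := many X (fun u => G.neighborFinset u) D (fun u _ => by
      rw [SimpleGraph.card_neighborFinset_eq_degree]; exact hdeg u) M₂
    have g3 : ((S X).card : ℝ) * M₂ ≤ (b * X.card) * M₂ := by
      have e3 : (b * X.card) * M₂ = D * X.card := by
        rw [hb, hM₂, hDexp]
        have : Real.exp (β * L) * Real.exp ((1 - β) * L) = Real.exp L := by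
          rw [← Real.exp_add]; congr 1; ring
        calc Real.exp (β * L) * X.card * Real.exp ((1 - β) * L) =
            (Real.exp (β * L) * Real.exp ((1 - β) * L)) * X.card := by ring
          _ = _ := by rw [this]
      rw [e3]
      exact g1
    exact le_of_mul_le_mul_right g3 hM₂0
  obtain ⟨lev, hlev⟩ := levels Bad S hBm hSm ha0 ha2 (Real.exp_pos _).le hab hBc hSc
  -- apply the engine
  set Ψ : Finset (U → V) := univ.filter (fun ψ => Emb H G ψ ∧ ∀ a b, lev (ψ a) = lev (ψ b))
    with hΨ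
  have hΨu : ∀ u, ((Ψ.filter (fun ψ => u ∈ im ψ)).card : ℝ) ≤ M₁ := by
    intro u
    have g1 := (hlev u).1
    rw [hBad] at g1
    simp only [Finset.mem_filter, Finset.mem_univ, true_and, not_lt] at g1
    refine le_trans ?_ g1
    have g2 : Ψ.filter (fun ψ => u ∈ im ψ) ⊆
        (cop H G (univ.filter (fun w => lev u ≤ lev w))).filter (fun ψ => u ∈ im ψ) := by
      intro ψ hψ
      rw [Finset.mem_filter, hΨ, Finset.mem_filter] at hψ
      obtain ⟨⟨-, hE, hl⟩, hu⟩ := hψ
      rw [Finset.mem_filter, mem_cop]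
      refine ⟨⟨hE, ?_⟩, hu⟩
      intro a
      rw [him, Finset.mem_image] at hu
      obtain ⟨z, -, hz⟩ := hu
      rw [Finset.mem_filter]
      refine ⟨Finset.mem_univ _, ?_⟩
      rw [← hz, hl z a]
    have g3 := Finset.card_le_card g2
    exact_mod_cast g3
  obtain ⟨n, hn, hcol⟩ := hD₁ D hDD₁ V G hdeg (fun v => lev v % 2)
    (fun v => Nat.mod_lt _ two_pos) Ψ
    (fun ψ hψ => by
      rw [hΨ, Finset.mem_filter] at hψ
      exact ⟨hψ.2.1.1, hψ.2.1.2⟩)
    (by
      intro v
      have hsub : Tch G x Ψ v ⊆ (G.neighborFinset v).biUnion (fun u =>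
          Ψ.filter (fun ψ => u ∈ im ψ)) := by
        intro ψ hψ
        obtain ⟨h1, z, -, hz2⟩ := mem_tch.1 hψ
        rw [Finset.mem_biUnion]
        refine ⟨ψ z, by rw [SimpleGraph.mem_neighborFinset]; exact hz2, ?_⟩
        rw [Finset.mem_filter, him]
        exact ⟨h1, Finset.mem_image_of_mem _ (Finset.mem_univ _)⟩
      have g1 : ((Tch G x Ψ v).card : ℝ) ≤ ∑ u ∈ G.neighborFinset v,
          ((Ψ.filter (fun ψ => u ∈ im ψ)).card : ℝ) := by
        exact_mod_cast (Finset.card_le_card hsub).trans Finset.card_biUnion_le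
      refine g1.trans ((Finset.sum_le_sum (fun u _ => hΨu u)).trans ?_)
      rw [Finset.sum_const, nsmul_eq_mul, SimpleGraph.card_neighborFinset_eq_degree, one_mul]
      have g2 : (G.degree v : ℝ) ≤ D := by exact_mod_cast hdeg v
      calc (G.degree v : ℝ) * M₁ ≤ D * M₁ := mul_le_mul_of_nonneg_right g2 hM₁0.le
        _ = (D : ℝ) ^ k * Real.exp (η * L) := by
            rw [hM₁, ← mul_assoc, ← pow_succ', Nat.sub_add_cancel hk])
    (fun u w => G.Adj u w ∧ lev u + 2 ≤ lev w)
    (fun u w h => h.1)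
    (by
      intro u
      have g1 := (hlev u).2
      rw [hS] at g1
      simp only [Finset.mem_filter, Finset.mem_univ, true_and, not_lt] at g1
      refine le_trans (Nat.cast_le.2 ?_) g1
      have g2 : univ.filter (fun w => G.Adj u w ∧ lev u + 2 ≤ lev w) ⊆
          (univ.filter (fun w => lev u + 2 ≤ lev w)).filter (fun w => u ∈ G.neighborFinset w) := by
        intro w hw
        rw [Finset.mem_filter] at hw
        rw [Finset.mem_filter, Finset.mem_filter, SimpleGraph.mem_neighborFinset]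
        exact ⟨⟨Finset.mem_univ _, hw.2.2⟩, hw.2.1.symm⟩
      have g3 := Finset.card_le_card g2
      convert g3)
    (by
      rintro T hcl hR ⟨φ, hφ, rfl⟩
      refine ⟨φ, ?_, Set.Subset.rfl⟩
      rw [hΨ, Finset.mem_filter]
      refine ⟨Finset.mem_univ _, hφ, ?_⟩
      have hadj : ∀ a b, H.Adj a b → lev (φ a) = lev (φ b) := by
        intro a b hab
        have g1 := hφ.2 a b hab
        have g2 : lev (φ a) % 2 = lev (φ b) % 2 := hcl (φ a) ⟨a, rfl⟩ (φ b) ⟨b, rfl⟩
        have g3 := hR (φ a) ⟨a, rfl⟩ (φ b) ⟨b, rfl⟩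
        have g4 := hR (φ b) ⟨b, rfl⟩ (φ a) ⟨a, rfl⟩
        rw [not_and] at g3 g4
        have g5 := g3 g1
        have g6 := g4 g1.symm
        omega
      intro a b
      obtain ⟨p⟩ := hH.preconnected a b
      induction p with
      | nil => rfl
      | cons h _ ih => exact (hadj _ _ h).trans ih)
  obtain ⟨f, hf1, hf2⟩ := hcol
  refine ⟨n, ⟨SimpleGraph.Coloring.mk (fun v => (⟨f v, hf1 v (Set.mem_univ _)⟩ : Fin n)) ?_⟩, ?_⟩
  · intro u v huv heq
    exact hf2 u (Set.mem_univ _) v (Set.mem_univ _) huv (by simpa using heq)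
  · refine hn.trans ?_
    refine mul_le_mul_of_nonneg_right hmain ?_
    exact div_nonneg (by linarith) hL0

end Pool.Agent.K1H34.AKS
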