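import Mathlib
import Pool.Agent.K1H34.AKS.Core

set_option autoImplicit false

/-!
# Blow-ups, homomorphisms, and three-colourable graphs
-/

namespace Pool.Agent.K1H34.AKS

open Finset Filter Classical Pool.Agent.Helper311.Glue Pool.Agent.TH855 Pool.Agent.Y388.CF
open scoped ENNReal

set_option linter.unusedSectionVars false

/-- choosing extensions: if many vertices `y` can play the role of `x`, the vertex `x` can be
replaced by many copies -/
theorem exists_emb {U W V : Type} [Fintype U] [Fintype V] (H : SimpleGraph U) (x : U)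
    (F : SimpleGraph W) (I : Type) [Fintype I] (f : W → {z // z ≠ x} ⊕ I)
    (hf : Function.Injective f)
    (hadj : ∀ a b, F.Adj a b → (∃ p q, f a = Sum.inl p ∧ f b = Sum.inl q ∧ H.Adj p q) ∨
      (∃ p q, f a = Sum.inl p ∧ f b = Sum.inr q ∧ H.Adj p x) ∨
      (∃ p q, f b = Sum.inl p ∧ f a = Sum.inr q ∧ H.Adj p x))
    (G : SimpleGraph V) (hfree : F.Free G) (ψ : U → V) (hψ : Emb H G ψ) (Y : Finset V)
    (hY : ∀ y ∈ Y, Emb H G (Function.update ψ x y)) : Y.card ≤ Fintype.card I := by
  by_contra hcon
  push Not at hcon
  apply hfree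
  obtain ⟨e⟩ : Nonempty (I ↪ {y // y ∈ Y}) := by
    rw [Function.Embedding.nonempty_iff_card_le]
    simpa using hcon.le
  set g : {z // z ≠ x} ⊕ I → V := Sum.elim (fun z => ψ z) (fun i => (e i : V)) with hg
  have hgi : Function.Injective g := by
    rintro (a | i) (b | j) hab
    · exact congrArg Sum.inl (Subtype.ext (hψ.1 hab))
    · exfalso
      have h1 := (hY _ (e j).2).1
      have h2 : Function.update ψ x (e j : V) a = Function.update ψ x (e j : V) x := by
        rw [Function.update_self, Function.update_of_ne a.2]
        exact hab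
      exact a.2 (h1 h2)
    · exfalso
      have h1 := (hY _ (e i).2).1
      have h2 : Function.update ψ x (e i : V) b = Function.update ψ x (e i : V) x := by
        rw [Function.update_self, Function.update_of_ne b.2]
        exact hab.symm
      exact b.2 (h1 h2)
    · have h3 : (e i : V) = (e j : V) := hab
      exact congrArg Sum.inr (e.injective (Subtype.ext h3))
  have key : ∀ (p : {z // z ≠ x}) (q : I), H.Adj p x → G.Adj (g (Sum.inl p)) (g (Sum.inr q)) := by
    intro p q hpx
    have h1 := (hY _ (e q).2).2 p x hpx
    rw [Function.update_self, Function.update_of_ne p.2] at h1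
    exact h1
  refine ⟨⟨⟨fun w => g (f w), ?_⟩, hgi.comp hf⟩⟩
  intro a b hab
  show G.Adj (g (f a)) (g (f b))
  rcases hadj a b hab with ⟨p, q, h1, h2, h3⟩ | ⟨p, q, h1, h2, h3⟩ | ⟨p, q, h1, h2, h3⟩
  · rw [h1, h2]
    exact hψ.2 _ _ h3
  · rw [h1, h2]
    exact key p q h3
  · rw [h1, h2]
    exact (key p q h3).symm

/-- `H` with the vertex `x` replaced by `s` independent copies -/
def dup {U : Type} (H : SimpleGraph U) (x : U) (s : ℕ) : SimpleGraph ({z : U // z ≠ x} ⊕ Fin s) where
  Adj
    | Sum.inl a, Sum.inl b => H.Adj a b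
    | Sum.inl a, Sum.inr _ => H.Adj a x
    | Sum.inr _, Sum.inl b => H.Adj b x
    | Sum.inr _, Sum.inr _ => False
  symm := ⟨by
    rintro (a | i) (b | j) h
    · exact h.symm
    · exact h
    · exact h
    · exact h⟩
  loopless := ⟨by
    rintro (a | i) h
    · exact H.irrefl h
    · exact h⟩

theorem dup_bound {U : Type} [Fintype U] (H : SimpleGraph U) (hH : H.Connected) (x : U)
    (hx : (H.induce {z | z ≠ x}).Connected) (s : ℕ) :
    c (dup H x s) ≤ 2 * Fintype.card U * c H := by
  refine core H hH x hx (dup H x s) s ?_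
  intro V _ G hfree ψ hψ Y hY
  have h := exists_emb H x (dup H x s) (Fin s) id Function.injective_id ?_ G hfree ψ hψ Y hY
  · simpa using h
  · rintro (a | i) (b | j) hab
    · exact Or.inl ⟨a, b, rfl, rfl, hab⟩
    · exact Or.inr (Or.inl ⟨a, j, rfl, rfl, hab⟩)
    · exact Or.inr (Or.inr ⟨b, i, rfl, rfl, hab⟩)
    · exact absurd hab id

/-! ## Blow-ups -/

/-- the vertex `v` is replaced by `n v` independent copies, for all `v` -/
def blow {U : Type} (H : SimpleGraph U) (n : U → ℕ) : SimpleGraph (Σ v, Fin (n v)) where
  Adj p q := H.Adj p.1 q.1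
  symm := ⟨fun _ _ h => h.symm⟩
  loopless := ⟨fun _ h => H.irrefl h⟩

/-- a set of vertices of a blow-up given by a connected set of at least two vertices -/
theorem blow_conn {U : Type} (H : SimpleGraph U) (n : U → ℕ) (hn : ∀ v, 1 ≤ n v) (P : Set U)
    (hP : (H.induce P).Connected) (h2 : ∃ a ∈ P, ∃ b ∈ P, a ≠ b) (Q : Set (Σ v, Fin (n v)))
    (hQ : ∀ z, z ∈ Q ↔ z.1 ∈ P) : ((blow H n).induce Q).Connected := by
  -- every vertex has a neighbour
  have hnb : ∀ a : P, ∃ b : P, (H.induce P).Adj a b := by
    intro a
    obtain ⟨b, hb⟩ : ∃ b : P, b ≠ a := by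
      obtain ⟨u, hu, v, hv, huv⟩ := h2
      by_cases h : (⟨u, hu⟩ : P) = a
      · exact ⟨⟨v, hv⟩, fun h' => huv (congrArg Subtype.val (h.trans h'.symm))⟩
      · exact ⟨⟨u, hu⟩, h⟩
    obtain ⟨p⟩ := hP.preconnected a b
    cases p with
    | nil => exact absurd rfl hb
    | cons h _ => exact ⟨_, h⟩
  set z0 : (a : P) → Q := fun a => ⟨⟨a, ⟨0, hn a⟩⟩, (hQ _).2 a.2⟩ with hz0
  -- the vertices with index zero are connected
  have h3 : ∀ a b : P, ((blow H n).induce Q).Reachable (z0 a) (z0 b) := by
    intro a b
    obtain ⟨p⟩ := hP.preconnected a b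
    induction p with
    | nil => exact SimpleGraph.Reachable.refl _
    | cons h _ ih =>
      refine SimpleGraph.Reachable.trans ?_ ih
      apply SimpleGraph.Adj.reachable
      exact h
  have h4 : ∀ z : Q, ((blow H n).induce Q).Reachable z (z0 ⟨z.1.1, (hQ _).1 z.2⟩) := by
    intro z
    obtain ⟨b, hb⟩ := hnb ⟨z.1.1, (hQ _).1 z.2⟩
    have h5 : ((blow H n).induce Q).Adj z (z0 b) := hb
    exact h5.reachable.trans (h3 _ _)
  obtain ⟨a0⟩ := hP.nonempty
  rw [SimpleGraph.connected_iff_exists_forall_reachable]
  exact ⟨z0 a0, fun z => (h3 _ _).trans (h4 z).symm⟩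

theorem blow_mono {U : Type} (H : SimpleGraph U) {n n' : U → ℕ} (h : ∀ v, n v ≤ n' v) :
    (blow H n).IsContained (blow H n') := by
  refine ⟨⟨⟨fun p => ⟨p.1, Fin.castLE (h p.1) p.2⟩, fun {a b} hab => hab⟩, ?_⟩⟩
  rintro ⟨a, i⟩ ⟨b, j⟩ hab
  have h1 : a = b := congrArg Sigma.fst hab
  subst h1
  have h2 : Fin.castLE (h a) i = Fin.castLE (h a) j := by
    have := hab
    simpa using this
  rw [Fin.castLE_injective (h a) h2]

/-- blow-ups of two-connected graphs -/
theorem blow_bound {U : Type} [Fintype U] (H : SimpleGraph U) (hH : H.Connected)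
    (h3 : 3 ≤ Fintype.card U) (hx : ∀ x, (H.induce {z | z ≠ x}).Connected) (n : U → ℕ)
    (hn : ∀ v, 1 ≤ n v) :
    c (blow H n) ≤ (2 * ((∑ v, n v : ℕ) : ℝ≥0∞)) ^ Fintype.card U * c H := by
  -- the sets of multiplied vertices
  have main : ∀ (A : Finset U), c (blow H (fun v => if v ∈ A then n v else 1)) ≤
      (2 * ((∑ v, n v : ℕ) : ℝ≥0∞)) ^ A.card * c H := by
    intro A
    induction A using Finset.induction_on with
    | empty =>
      rw [Finset.card_empty, pow_zero, one_mul]
      refine c_mono ⟨⟨⟨fun p => p.1, fun {a b} hab => hab⟩, ?_⟩⟩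
      rintro ⟨a, i⟩ ⟨b, j⟩ hab
      have h1 : a = b := hab
      subst h1
      have h2 : i = j := by
        have hi := i.2
        have hj := j.2
        simp only [Finset.notMem_empty, if_false] at hi hj
        exact Fin.ext (by omega)
      rw [h2]
    | insert x A hxA ih =>
      set n1 : U → ℕ := fun v => if v ∈ A then n v else 1 with hn1
      set n2 : U → ℕ := fun v => if v ∈ insert x A then n v else 1 with hn2
      have hn1' : ∀ v, 1 ≤ n1 v := by
        intro v
        rw [hn1]
        simp only
        split_ifs
        · exact hn v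
        · exact le_refl _
      have hn1x : n1 x = 1 := by rw [hn1]; simp [hxA]
      have hn12 : ∀ v, v ≠ x → n2 v = n1 v := by
        intro v hv
        rw [hn1, hn2]
        simp [Finset.mem_insert, hv]
      have hn2x : n2 x = n x := by rw [hn2]; simp
      set x1 : Σ v, Fin (n1 v) := ⟨x, ⟨0, hn1' x⟩⟩ with hx1
      have hx1' : ∀ z : Σ v, Fin (n1 v), z ≠ x1 ↔ z.1 ≠ x := by
        rintro ⟨v, i⟩
        constructor
        · intro h h'
          apply h
          simp only at h'
          subst h'
          rw [hx1]
          have : i = ⟨0, hn1' v⟩ := by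
            have hi := i.2
            exact Fin.ext (by simp only; omega)
          rw [this]
        · intro h h'
          exact h (congrArg Sigma.fst h')
      have hcard : Fintype.card U = Fintype.card U := rfl
      have hconn : (blow H n1).Connected := by
        obtain ⟨a, b, hab⟩ : ∃ a b : U, a ≠ b := by
          have : 1 < Fintype.card U := by omega
          obtain ⟨a, b, h⟩ := Fintype.one_lt_card_iff.1 this
          exact ⟨a, b, h⟩
        have h5 := blow_conn H n1 hn1' Set.univ
          ((SimpleGraph.induceUnivIso H).connected_iff.2 hH) ⟨a, trivial, b, trivial, hab⟩ Set.univ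
          (fun z => by simp)
        exact (SimpleGraph.induceUnivIso (blow H n1)).connected_iff.1 h5
      have hconn' : ((blow H n1).induce {z | z ≠ x1}).Connected := by
        refine blow_conn H n1 hn1' {z | z ≠ x} (hx x) ?_ _ (fun z => hx1' z)
        obtain ⟨a, ha⟩ := Fintype.exists_ne_of_one_lt_card (show 1 < Fintype.card U by omega) x
        obtain ⟨b, hb⟩ : ∃ b, b ∉ ({x, a} : Finset U) := by
          by_contra hcon
          push Not at hcon
          have h6 : (univ : Finset U) ⊆ {x, a} := fun b _ => hcon b
          have h7 := Finset.card_le_card h6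
          rw [Finset.card_univ] at h7
          have h8 : ({x, a} : Finset U).card ≤ 2 := Finset.card_le_two
          omega
        rw [Finset.mem_insert, Finset.mem_singleton, not_or] at hb
        exact ⟨a, ha, b, hb.1, fun h => hb.2 h.symm⟩
      have h6 := core (blow H n1) hconn x1 hconn' (blow H n2) (n x) (by
        intro V _ G hfree ψ hψ Y hY
        have h := exists_emb (blow H n1) x1 (blow H n2) (Fin (n x))
          (fun p => if h : p.1 = x then Sum.inr ⟨p.2, by
              have := p.2.2
              have h9 : n2 p.1 = n x := by rw [h, hn2x]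
              omega⟩
            else Sum.inl ⟨⟨p.1, ⟨p.2, by
              have := p.2.2
              have h9 := hn12 p.1 h
              omega⟩⟩, (hx1' _).2 h⟩) ?_ ?_ G hfree ψ hψ Y hY
        · simpa using h
        · rintro ⟨a, i⟩ ⟨b, j⟩ hab
          by_cases ha : a = x
          · by_cases hb : b = x
            · subst ha
              subst hb
              simp only [dif_pos] at hab
              have h1 := Sum.inr.inj hab
              rw [Fin.mk.injEq] at h1
              rw [Fin.ext h1]
            · simp only [ha, hb, dif_pos, dif_neg, not_false_iff] at hab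
              exact absurd hab (by simp)
          · by_cases hb : b = x
            · simp only [ha, hb, dif_pos, dif_neg, not_false_iff] at hab
              exact absurd hab (by simp)
            · simp only [ha, hb, dif_neg, not_false_iff] at hab
              have h1 := congrArg Subtype.val (Sum.inl.inj hab)
              have h2 : a = b := congrArg Sigma.fst h1
              subst h2
              simp only [Sigma.mk.injEq, heq_eq_eq, true_and, Fin.mk.injEq] at h1
              rw [Fin.ext h1]
        · rintro ⟨a, i⟩ ⟨b, j⟩ hab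
          have hab' : H.Adj a b := hab
          by_cases ha : a = x
          · by_cases hb : b = x
            · subst ha
              subst hb
              exact absurd hab' (H.irrefl)
            · right; right
              subst ha
              refine ⟨_, _, dif_neg hb, dif_pos rfl, ?_⟩
              exact hab'.symm
          · by_cases hb : b = x
            · right; left
              subst hb
              refine ⟨_, _, dif_neg ha, dif_pos rfl, ?_⟩
              exact hab'
            · left
              refine ⟨_, _, dif_neg ha, dif_neg hb, ?_⟩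
              exact hab')
      refine h6.trans ?_
      have h7 : ((Fintype.card (Σ v, Fin (n1 v)) : ℕ) : ℝ≥0∞) ≤ ((∑ v, n v : ℕ) : ℝ≥0∞) := by
        rw [Fintype.card_sigma]
        refine Nat.cast_le.2 (Finset.sum_le_sum (fun v _ => ?_))
        rw [Fintype.card_fin, hn1]
        simp only
        split_ifs
        · exact le_refl _
        · exact hn v
      rw [Finset.card_insert_of_notMem hxA, pow_succ']
      calc 2 * ((Fintype.card (Σ v, Fin (n1 v)) : ℕ) : ℝ≥0∞) * c (blow H n1)
          ≤ 2 * ((∑ v, n v : ℕ) : ℝ≥0∞) * ((2 * ((∑ v, n v : ℕ) : ℝ≥0∞)) ^ A.card * c H) := by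
            gcongr
        _ = _ := by ring
  have h8 := main univ
  rw [Finset.card_univ] at h8
  refine le_trans (c_mono (blow_mono H (fun v => ?_))) h8
  simp

/-- homomorphisms to two-connected graphs -/
theorem hom_bound {W U : Type} [Fintype W] [Fintype U] (F : SimpleGraph W) (H : SimpleGraph U)
    (h3 : 3 ≤ Fintype.card U) (hx : ∀ x, (H.induce {z | z ≠ x}).Connected) (f : F →g H) :
    c F ≤ (2 * ((Fintype.card W + Fintype.card U : ℕ) : ℝ≥0∞)) ^ Fintype.card U * c H := by
  have hH : H.Connected := by
    rw [SimpleGraph.connected_iff]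
    refine ⟨?_, Fintype.card_pos_iff.1 (lt_of_lt_of_le three_pos h3)⟩
    intro a b
    obtain ⟨x, hx'⟩ : ∃ x, x ∉ ({a, b} : Finset U) := by
      by_contra hcon
      push Not at hcon
      have h6 : (univ : Finset U) ⊆ {a, b} := fun x _ => hcon x
      have h7 := Finset.card_le_card h6
      rw [Finset.card_univ] at h7
      have h8 : ({a, b} : Finset U).card ≤ 2 := Finset.card_le_two
      omega
    rw [Finset.mem_insert, Finset.mem_singleton, not_or] at hx'
    have h1 := (hx x).preconnected ⟨a, fun h => hx'.1 h.symm⟩ ⟨b, fun h => hx'.2 h.symm⟩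
    exact h1.map (SimpleGraph.Embedding.induce {z | z ≠ x}).toHom
  set n : U → ℕ := fun v => Fintype.card {w : W // f w = v} + 1 with hn
  have h1 := blow_bound H hH h3 hx n (fun v => Nat.le_add_left 1 _)
  have h2 : ∑ v, n v = Fintype.card W + Fintype.card U := by
    rw [hn, Finset.sum_add_distrib]
    congr 1
    · rw [← Fintype.card_sigma]
      exact Fintype.card_congr (Equiv.sigmaFiberEquiv f)
    · simp
  rw [h2] at h1
  refine le_trans (c_mono ?_) h1
  have h4 : ∀ v, Nonempty ({w : W // f w = v} ↪ Fin (n v)) := by
    intro v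
    rw [Function.Embedding.nonempty_iff_card_le, Fintype.card_fin]
    exact Nat.le_succ _
  have e : ∀ v, {w : W // f w = v} ↪ Fin (n v) := fun v => (h4 v).some
  refine ⟨⟨⟨fun w => ⟨f w, e (f w) ⟨w, rfl⟩⟩, fun {a b} hab => f.map_adj hab⟩, ?_⟩⟩
  intro a b hab
  have key : ∀ (u v : U) (p : {w : W // f w = u}) (q : {w : W // f w = v}),
      (⟨u, e u p⟩ : Σ v, Fin (n v)) = ⟨v, e v q⟩ → (p : W) = q := by
    intro u v p q h
    have h5 : u = v := congrArg Sigma.fst h
    subst h5
    simp only [Sigma.mk.injEq, heq_eq_eq, true_and] at h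
    rw [(e u).injective h]
  exact key _ _ _ _ hab

/-- graphs with a proper colouring with three colours -/
theorem three_bound {W : Type} [Fintype W] (F : SimpleGraph W) (C : F.Coloring (Fin 3))
    (i : Fin 3) : c F ≤ 2 * ((Fintype.card {w : W // C w ≠ i} + 1 : ℕ) : ℝ≥0∞) := by
  by_cases hne : ∀ j, j ≠ i → ∃ w, C w = j
  · -- the auxiliary graph
    set A := {w : W // C w ≠ i} with hA
    let H : SimpleGraph (Option A) :=
      { Adj := fun a b => match a, b with
          | none, none => False
          | none, some _ => True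
          | some _, none => True
          | some a, some b => C a ≠ C b
        symm := ⟨by
          rintro (_ | a) (_ | b) h
          · exact h
          · exact trivial
          · exact trivial
          · exact fun h' => h h'.symm⟩
        loopless := ⟨by
          rintro (_ | a) h
          · exact h
          · exact h rfl⟩ }
    obtain ⟨j, k, hji, hki, hjk, hall⟩ : ∃ j k : Fin 3, j ≠ i ∧ k ≠ i ∧ j ≠ k ∧
        ∀ l, l ≠ i → l = j ∨ l = k := by
      have aux : ∀ i : Fin 3, ∃ j k : Fin 3, j ≠ i ∧ k ≠ i ∧ j ≠ k ∧
        ∀ l, l ≠ i → l = j ∨ l = k := by decide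
      exact aux i
    obtain ⟨wj, hwj⟩ := hne j hji
    obtain ⟨wk, hwk⟩ := hne k hki
    set aj : A := ⟨wj, by rw [hwj]; exact hji⟩ with haj
    set ak : A := ⟨wk, by rw [hwk]; exact hki⟩ with hak
    have hHc : H.Connected := by
      rw [SimpleGraph.connected_iff_exists_forall_reachable]
      refine ⟨none, ?_⟩
      rintro (_ | a)
      · exact SimpleGraph.Reachable.refl _
      · have : H.Adj none (some a) := trivial
        exact this.reachable
    have hHx : (H.induce {z | z ≠ none}).Connected := by
      rw [SimpleGraph.connected_iff_exists_forall_reachable]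
      have hjk' : (H.induce {z | z ≠ none}).Adj ⟨some aj, by simp⟩ ⟨some ak, by simp⟩ := by
        show C wj ≠ C wk
        rw [hwj, hwk]; exact hjk
      refine ⟨⟨some aj, by simp⟩, ?_⟩
      rintro ⟨(_ | a), ha⟩
      · exact absurd rfl ha
      · rcases hall _ a.2 with h | h
        · have h5 : (H.induce {z | z ≠ none}).Adj ⟨some ak, by simp⟩ ⟨some a, ha⟩ := by
            show C wk ≠ C a
            rw [hwk, h]; exact hjk.symm
          exact hjk'.reachable.trans h5.reachable
        · have h5 : (H.induce {z | z ≠ none}).Adj ⟨some aj, by simp⟩ ⟨some a, ha⟩ := by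
            show C wj ≠ C a
            rw [hwj, h]; exact hjk
          exact h5.reachable
    have hHc1 : c H ≤ 1 := by
      refine c_ab_le_one H none ⟨SimpleGraph.Coloring.mk (fun y : {y | y ≠ none} =>
        if (∃ a : A, y.1 = some a ∧ C a = j) then (0 : Fin 2) else 1) ?_⟩
      rintro ⟨(_ | a), ha⟩ ⟨(_ | b), hb⟩ hab
      · exact absurd rfl ha
      · exact absurd rfl ha
      · exact absurd rfl hb
      · have hab' : C a ≠ C b := hab
        have e1 : ∀ a : A, (∃ a' : A, (some a : Option A) = some a' ∧ C a' = j) ↔ C a = j := by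
          intro a
          constructor
          · rintro ⟨a', h1, h2⟩
            rw [Option.some.inj h1]; exact h2
          · intro h; exact ⟨a, rfl, h⟩
        simp only [e1]
        rcases hall _ a.2 with h | h <;> rcases hall _ b.2 with h' | h'
        · exact absurd (h.trans h'.symm) hab'
        · rw [if_pos h, if_neg (by rw [h']; exact hjk.symm)]
          decide
        · rw [if_neg (by rw [h]; exact hjk.symm), if_pos h']
          decide
        · exact absurd (h.trans h'.symm) hab'
    have h6 := core H hHc none hHx F (Fintype.card {w : W // C w = i}) (by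
      intro V _ G hfree ψ hψ Y hY
      refine exists_emb H none F {w : W // C w = i}
        (fun w => if h : C w = i then Sum.inr ⟨w, h⟩ else Sum.inl ⟨some ⟨w, h⟩, by simp⟩) ?_ ?_ G
        hfree ψ hψ Y hY
      · intro a b hab
        by_cases ha : C a = i
        · by_cases hb : C b = i
          · simp only [ha, hb, dif_pos] at hab
            exact congrArg Subtype.val (Sum.inr.inj hab)
          · simp only [ha, hb, dif_pos, dif_neg, not_false_iff] at hab
            exact absurd hab (by simp)
        · by_cases hb : C b = i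
          · simp only [ha, hb, dif_pos, dif_neg, not_false_iff] at hab
            exact absurd hab (by simp)
          · simp only [ha, hb, dif_neg, not_false_iff] at hab
            have h1 := congrArg Subtype.val (Sum.inl.inj hab)
            exact congrArg Subtype.val (Option.some.inj h1)
      · intro a b hab
        have hC : C a ≠ C b := C.valid hab
        by_cases ha : C a = i
        · by_cases hb : C b = i
          · exact absurd (ha.trans hb.symm) hC
          · right; right
            exact ⟨_, _, dif_neg hb, dif_pos ha, trivial⟩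
        · by_cases hb : C b = i
          · right; left
            exact ⟨_, _, dif_neg ha, dif_pos hb, trivial⟩
          · left
            exact ⟨_, _, dif_neg ha, dif_neg hb, hC⟩)
    refine h6.trans ?_
    have h7 : Fintype.card (Option A) = Fintype.card {w : W // C w ≠ i} + 1 := by
      rw [Fintype.card_option]
    rw [h7]
    calc 2 * ((Fintype.card {w : W // C w ≠ i} + 1 : ℕ) : ℝ≥0∞) * c H
        ≤ 2 * ((Fintype.card {w : W // C w ≠ i} + 1 : ℕ) : ℝ≥0∞) * 1 := by gcongr
      _ = _ := mul_one _
  · push Not at hne
    obtain ⟨j, hji, hj⟩ := hne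
    have h1 : F.Colorable 2 := by
      have aux : ∀ j : Fin 3, ∃ g : Fin 3 → Fin 2, ∀ a b, a ≠ j → b ≠ j → a ≠ b → g a ≠ g b := by
        intro j
        fin_cases j
        · exact ⟨![0, 0, 1], by decide⟩
        · exact ⟨![0, 0, 1], by decide⟩
        · exact ⟨![0, 1, 0], by decide⟩
      obtain ⟨g, hg⟩ := aux j
      exact ⟨SimpleGraph.Coloring.mk (fun w => g (C w)) (fun {a b} hab =>
        hg _ _ (hj a) (hj b) (C.valid hab))⟩
    refine (c_almost_bipartite F (Or.inl h1)).trans ?_
    have h2 : (1 : ℝ≥0∞) ≤ ((Fintype.card {w : W // C w ≠ i} + 1 : ℕ) : ℝ≥0∞) := by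
      exact_mod_cast Nat.le_add_left 1 _
    calc (1 : ℝ≥0∞) ≤ 1 * ((Fintype.card {w : W // C w ≠ i} + 1 : ℕ) : ℝ≥0∞) := by
          rw [one_mul]; exact h2
      _ ≤ 2 * ((Fintype.card {w : W // C w ≠ i} + 1 : ℕ) : ℝ≥0∞) := by
          gcongr
          exact one_le_two

end Pool.Agent.K1H34.AKS
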